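import Mathlib

/-!
Klivans–Spielman weights and sparsity bounds.
-/

open MvPolynomial Finset

namespace KS

variable {K : Type*} [CommRing K]

/-- the substitution `X i ↦ Y ^ (t ^ i mod q)` -/
noncomputable def ksub (K : Type*) [CommRing K] {n : ℕ} (q t : ℕ) :
    MvPolynomial (Fin n) K →ₐ[K] Polynomial K :=
  aeval (fun i : Fin n => (Polynomial.X : Polynomial K) ^ (t ^ (i : ℕ) % q))

lemma ksub_monomial {n : ℕ} (q t : ℕ) (m : Fin n →₀ ℕ) (c : K) :
    ksub K q t (monomial m c) = Polynomial.C c * Polynomial.X ^ (∑ k, m k * (t ^ (k : ℕ) % q)) := by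
  rw [ksub, aeval_monomial, Finsupp.prod_fintype _ _ (by simp), Polynomial.algebraMap_eq]
  congr 1
  rw [← Finset.prod_pow_eq_pow_sum]
  exact Finset.prod_congr rfl fun k _ => by rw [← pow_mul, mul_comm]

lemma eval_ksub {n : ℕ} (q t : ℕ) (f : MvPolynomial (Fin n) K) (y : K) :
    (ksub K q t f).eval y = eval (fun i : Fin n => y ^ (t ^ (i : ℕ) % q)) f := by
  induction f using MvPolynomial.induction_on with
  | C a => simp [ksub]
  | add p r hp hr => rw [map_add, Polynomial.eval_add, hp, hr, map_add]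
  | mul_X p i hp => rw [map_mul, Polynomial.eval_mul, hp, map_mul]; simp [ksub]

lemma natDegree_ksub_le {n : ℕ} (q t : ℕ) (hq : 0 < q) (f : MvPolynomial (Fin n) K) :
    (ksub K q t f).natDegree ≤ (q - 1) * f.totalDegree := by
  conv_lhs => rw [f.as_sum]
  rw [map_sum]
  apply Polynomial.natDegree_sum_le_of_forall_le
  intro m hm
  rw [ksub_monomial]
  refine (Polynomial.natDegree_C_mul_X_pow_le _ _).trans ?_
  have h1 : ∑ k, m k ≤ f.totalDegree := by
    have := le_totalDegree hm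
    rwa [Finsupp.sum_fintype _ _ (by simp)] at this
  calc ∑ k, m k * (t ^ (k : ℕ) % q) ≤ ∑ k, m k * (q - 1) :=
        Finset.sum_le_sum fun k _ => Nat.mul_le_mul_left _ (by
          have := Nat.mod_lt (t ^ (k : ℕ)) hq
          omega)
    _ = (q - 1) * ∑ k, m k := by rw [← Finset.sum_mul, mul_comm]
    _ ≤ _ := Nat.mul_le_mul_left _ h1

/-- few exponents fail to separate two monomials -/
lemma card_bad_pair {n p : ℕ} [Fact p.Prime] (m m' : Fin n →₀ ℕ) (hne : m ≠ m')
    (hm : ∀ k, m k < p) (hm' : ∀ k, m' k < p) :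
    #((range p).filter fun κ => ∑ k : Fin n, m k * (κ ^ (k : ℕ) % p)
      = ∑ k : Fin n, m' k * (κ ^ (k : ℕ) % p)) ≤ n - 1 := by
  classical
  set Δ : Polynomial (ZMod p) :=
    ∑ k : Fin n, Polynomial.C ((m k : ZMod p) - (m' k : ZMod p)) * Polynomial.X ^ (k : ℕ) with hΔ
  have hΔ0 : Δ ≠ 0 := by
    intro h0
    apply hne
    ext k
    have h1 : Δ.coeff (k : ℕ) = (m k : ZMod p) - (m' k : ZMod p) := by
      rw [hΔ, Polynomial.finsetSum_coeff, Finset.sum_eq_single k]
      · rw [Polynomial.coeff_C_mul, Polynomial.coeff_X_pow_self, mul_one]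
      · intro b _ hb
        rw [Polynomial.coeff_C_mul, Polynomial.coeff_X_pow,
          if_neg (fun h => hb (Fin.ext h.symm)), mul_zero]
      · simp
    rw [h0, Polynomial.coeff_zero] at h1
    have h2 : ((m k : ℕ) : ZMod p) = ((m' k : ℕ) : ZMod p) := (sub_eq_zero.1 h1.symm)
    rw [ZMod.natCast_eq_natCast_iff'] at h2
    rwa [Nat.mod_eq_of_lt (hm k), Nat.mod_eq_of_lt (hm' k)] at h2
  have hdeg : Δ.natDegree ≤ n - 1 := by
    rw [hΔ]
    apply Polynomial.natDegree_sum_le_of_forall_le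
    intro k _
    refine (Polynomial.natDegree_C_mul_X_pow_le _ _).trans ?_
    have := k.2
    omega
  refine le_trans ?_ hdeg
  refine le_trans ?_ (Polynomial.card_roots' Δ)
  refine le_trans ?_ (Multiset.toFinset_card_le Δ.roots)
  apply Finset.card_le_card_of_injOn (fun κ : ℕ => (κ : ZMod p))
  · intro κ hκ
    rw [Finset.mem_coe, Finset.mem_filter] at hκ
    rw [Finset.mem_coe, Multiset.mem_toFinset, Polynomial.mem_roots hΔ0, Polynomial.IsRoot.def,
      hΔ, Polynomial.eval_finsetSum]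
    have h3 := congrArg (fun r : ℕ => (r : ZMod p)) hκ.2
    simp only [Nat.cast_sum, Nat.cast_mul, ZMod.natCast_mod, Nat.cast_pow] at h3
    rw [← sub_eq_zero, ← Finset.sum_sub_distrib] at h3
    rw [← h3]
    refine Finset.sum_congr rfl fun k _ => ?_
    simp
    ring
  · intro κ hκ κ' hκ' heq
    rw [Finset.mem_coe, Finset.mem_filter, Finset.mem_range] at hκ hκ'
    simp only at heq
    rw [ZMod.natCast_eq_natCast_iff'] at heq
    rwa [Nat.mod_eq_of_lt hκ.1, Nat.mod_eq_of_lt hκ'.1] at heq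

lemma lt_of_degreeOf {n p : ℕ} {f : MvPolynomial (Fin n) K} (h : ∀ i, degreeOf i f < p)
    {m : Fin n →₀ ℕ} (hm : m ∈ f.support) (i : Fin n) : m i < p :=
  lt_of_le_of_lt (monomial_le_degreeOf i hm) (h i)

open Classical in
/-- few exponents are bad for one sparse polynomial -/
lemma card_bad {n p σ : ℕ} [Fact p.Prime] (f : MvPolynomial (Fin n) K) (hf : f ≠ 0)
    (hσ : #f.support ≤ σ) (hd : ∀ i, degreeOf i f < p) :
    #((range p).filter fun κ => ksub K p κ f = 0) ≤ (σ - 1) * (n - 1) := by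
  classical
  obtain ⟨m0, hm0⟩ : ∃ m0, m0 ∈ f.support :=
    Finset.nonempty_iff_ne_empty.2 fun h => hf (support_eq_empty.1 h)
  have hsub : ((range p).filter fun κ => ksub K p κ f = 0) ⊆
      (f.support.erase m0).biUnion fun m =>
        (range p).filter fun κ => ∑ k : Fin n, m k * (κ ^ (k : ℕ) % p)
          = ∑ k : Fin n, m0 k * (κ ^ (k : ℕ) % p) := by
    intro κ hκ
    rw [Finset.mem_filter] at hκ
    by_contra hcon
    rw [Finset.mem_biUnion] at hcon
    push Not at hcon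
    have hsep : ∀ m ∈ f.support, m ≠ m0 → ∑ k : Fin n, m k * (κ ^ (k : ℕ) % p)
          ≠ ∑ k : Fin n, m0 k * (κ ^ (k : ℕ) % p) := by
      intro m hm hne heq
      exact hcon m (Finset.mem_erase.2 ⟨hne, hm⟩) (Finset.mem_filter.2 ⟨hκ.1, heq⟩)
    have hcoeff : (ksub K p κ f).coeff (∑ k : Fin n, m0 k * (κ ^ (k : ℕ) % p)) = coeff m0 f := by
      conv_lhs => rw [f.as_sum]
      rw [map_sum, Polynomial.finsetSum_coeff, Finset.sum_eq_single m0]
      · rw [ksub_monomial, Polynomial.coeff_C_mul, Polynomial.coeff_X_pow_self, mul_one]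
      · intro m hm hmm0
        rw [ksub_monomial, Polynomial.coeff_C_mul, Polynomial.coeff_X_pow,
          if_neg (fun h => hsep m hm hmm0 h.symm), mul_zero]
      · intro h
        exact absurd hm0 h
    rw [hκ.2, Polynomial.coeff_zero] at hcoeff
    exact mem_support_iff.1 hm0 hcoeff.symm
  refine (Finset.card_le_card hsub).trans (Finset.card_biUnion_le.trans ?_)
  calc ∑ m ∈ f.support.erase m0, #((range p).filter fun κ =>
          ∑ k : Fin n, m k * (κ ^ (k : ℕ) % p) = ∑ k : Fin n, m0 k * (κ ^ (k : ℕ) % p))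
      ≤ ∑ m ∈ f.support.erase m0, (n - 1) := by
        refine Finset.sum_le_sum fun m hm => ?_
        rw [Finset.mem_erase] at hm
        exact card_bad_pair m m0 hm.1 (lt_of_degreeOf hd hm.2) (lt_of_degreeOf hd hm0)
    _ = #(f.support.erase m0) * (n - 1) := by rw [Finset.sum_const, smul_eq_mul]
    _ ≤ (σ - 1) * (n - 1) := by
        rw [Finset.card_erase_of_mem hm0]
        exact Nat.mul_le_mul_right _ (by omega)

/-- **one exponent for all**: a finite family of nonzero `σ`-sparse polynomials of individual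
degrees `< p` -/
theorem exists_exponent {n p σ : ℕ} (hp : p.Prime) (Q : Finset (MvPolynomial (Fin n) K))
    (hQ : ∀ f ∈ Q, f ≠ 0) (hσ : ∀ f ∈ Q, #f.support ≤ σ)
    (hd : ∀ f ∈ Q, ∀ i, degreeOf i f < p) (hbig : (σ - 1) * (n - 1) * #Q < p) :
    ∃ t < p, ∀ f ∈ Q, ksub K p t f ≠ 0 := by
  classical
  haveI : Fact p.Prime := ⟨hp⟩
  by_contra hcon
  push Not at hcon
  have hsub : range p ⊆ Q.biUnion fun f => (range p).filter fun κ => ksub K p κ f = 0 := by
    intro κ hκ
    obtain ⟨f, hf, h0⟩ := hcon κ (Finset.mem_range.1 hκ)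
    exact Finset.mem_biUnion.2 ⟨f, hf, Finset.mem_filter.2 ⟨hκ, h0⟩⟩
  have h1 := (Finset.card_le_card hsub).trans Finset.card_biUnion_le
  have h2 : ∑ f ∈ Q, #((range p).filter fun κ => ksub K p κ f = 0)
      ≤ ∑ f ∈ Q, (σ - 1) * (n - 1) :=
    Finset.sum_le_sum fun f hf => card_bad f (hQ f hf) (hσ f hf) (hd f hf)
  rw [Finset.sum_const, smul_eq_mul, mul_comm (#Q)] at h2
  rw [Finset.card_range] at h1
  omega

/-- the same for an indexed family -/
theorem exists_exponent' {n p σ : ℕ} (hp : p.Prime) {ι : Type*} (s : Finset ι)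
    (Q : ι → MvPolynomial (Fin n) K)
    (hQ : ∀ j ∈ s, Q j ≠ 0) (hσ : ∀ j ∈ s, #(Q j).support ≤ σ)
    (hd : ∀ j ∈ s, ∀ i, degreeOf i (Q j) < p) (hbig : (σ - 1) * (n - 1) * #s < p) :
    ∃ t < p, ∀ j ∈ s, ksub K p t (Q j) ≠ 0 := by
  classical
  obtain ⟨t, ht, h⟩ := exists_exponent (K := K) hp (s.image Q) (σ := σ)
    (fun f hf => by obtain ⟨j, hj, rfl⟩ := Finset.mem_image.1 hf; exact hQ j hj)
    (fun f hf => by obtain ⟨j, hj, rfl⟩ := Finset.mem_image.1 hf; exact hσ j hj)
    (fun f hf => by obtain ⟨j, hj, rfl⟩ := Finset.mem_image.1 hf; exact hd j hj)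
    (lt_of_le_of_lt (Nat.mul_le_mul_left _ Finset.card_image_le) hbig)
  exact ⟨t, ht, fun j hj => h _ (Finset.mem_image_of_mem _ hj)⟩

/-- the number of values `y` at which one of the (surviving) polynomials vanishes is at most
`#s * (p - 1) * d`, so a set of more points contains a common nonzero -/
theorem exists_point [IsDomain K] {n p σ d : ℕ} (hp : p.Prime) {ι : Type*} (s : Finset ι)
    (Q : ι → MvPolynomial (Fin n) K)
    (hQ : ∀ j ∈ s, Q j ≠ 0) (hσ : ∀ j ∈ s, #(Q j).support ≤ σ)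
    (hd : ∀ j ∈ s, ∀ i, degreeOf i (Q j) < p) (hbig : (σ - 1) * (n - 1) * #s < p)
    (htd : ∀ j ∈ s, (Q j).totalDegree ≤ d) (Y : Finset K) (hY : #s * ((p - 1) * d) < #Y) :
    ∃ t < p, ∃ y ∈ Y, ∀ j ∈ s, eval (fun i : Fin n => y ^ (t ^ (i : ℕ) % p)) (Q j) ≠ 0 := by
  classical
  obtain ⟨t, ht, h⟩ := exists_exponent' hp s Q hQ hσ hd hbig
  refine ⟨t, ht, ?_⟩
  by_contra hcon
  push Not at hcon
  have hsub : Y ⊆ s.biUnion fun j => (ksub K p t (Q j)).roots.toFinset := by
    intro y hy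
    obtain ⟨j, hj, h0⟩ := hcon y hy
    refine Finset.mem_biUnion.2 ⟨j, hj, ?_⟩
    rw [Multiset.mem_toFinset, Polynomial.mem_roots (h j hj), Polynomial.IsRoot.def, eval_ksub]
    exact h0
  have h1 := (Finset.card_le_card hsub).trans Finset.card_biUnion_le
  have h2 : ∑ j ∈ s, #(ksub K p t (Q j)).roots.toFinset ≤ ∑ j ∈ s, (p - 1) * d := by
    refine Finset.sum_le_sum fun j hj => ?_
    refine (Multiset.toFinset_card_le _).trans ((Polynomial.card_roots' _).trans ?_)
    exact (natDegree_ksub_le p t hp.pos _).trans (Nat.mul_le_mul_left _ (htd j hj))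
  rw [Finset.sum_const, smul_eq_mul] at h2
  omega

end KS
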