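import Pool.Agent.Helper7.KS

/-!
Sparsity and individual degree bounds.
-/

open MvPolynomial Finset

namespace KS

variable {K : Type*} [CommRing K] {σ : Type*}

/-- at most `s` monomials, individual degrees at most `d` -/
def Sp (s d : ℕ) (f : MvPolynomial σ K) : Prop := #f.support ≤ s ∧ ∀ i, degreeOf i f ≤ d

lemma Sp.mono {s d s' d' : ℕ} {f : MvPolynomial σ K} (h : Sp s d f) (hs : s ≤ s') (hd : d ≤ d') :
    Sp s' d' f := ⟨h.1.trans hs, fun i => (h.2 i).trans hd⟩

lemma Sp.mul {s d s' d' : ℕ} {f g : MvPolynomial σ K} (hf : Sp s d f) (hg : Sp s' d' g) :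
    Sp (s * s') (d + d') (f * g) := by
  classical
  refine ⟨?_, fun i => (degreeOf_mul_le i f g).trans (Nat.add_le_add (hf.2 i) (hg.2 i))⟩
  exact (Finset.card_le_card (support_mul f g)).trans
    (Finset.card_add_le.trans (Nat.mul_le_mul hf.1 hg.1))

lemma Sp.one [Nontrivial K] : Sp (σ := σ) (K := K) 1 0 1 := by
  classical
  refine ⟨?_, fun i => ?_⟩
  · rw [← C_1, ← monomial_zero']
    exact (Finset.card_le_card support_monomial_subset).trans (by simp)
  · rw [← C_1, degreeOf_C]

lemma Sp.zero (s d : ℕ) : Sp (σ := σ) (K := K) s d 0 := by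
  refine ⟨by simp, fun i => by simp⟩

lemma Sp.prod [Nontrivial K] {ι : Type*} (t : Finset ι) {s d : ℕ} (f : ι → MvPolynomial σ K)
    (h : ∀ j ∈ t, Sp s d (f j)) : Sp (s ^ #t) (#t * d) (∏ j ∈ t, f j) := by
  classical
  induction t using Finset.induction_on with
  | empty => simpa using Sp.one
  | insert a t ha ih =>
    rw [Finset.prod_insert ha, Finset.card_insert_of_notMem ha]
    have h1 := (h a (Finset.mem_insert_self a t)).mul
      (ih fun j hj => h j (Finset.mem_insert_of_mem hj))
    refine h1.mono (by rw [pow_succ, mul_comm]) (by rw [Nat.add_mul, one_mul, add_comm])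

lemma Sp.add {s d s' : ℕ} {f g : MvPolynomial σ K} (hf : Sp s d f) (hg : Sp s' d g) :
    Sp (s + s') d (f + g) := by
  classical
  refine ⟨?_, fun i => (degreeOf_add_le i f g).trans (max_le (hf.2 i) (hg.2 i))⟩
  exact (Finset.card_le_card support_add).trans
    ((Finset.card_union_le _ _).trans (Nat.add_le_add hf.1 hg.1))

lemma Sp.sum {ι : Type*} (t : Finset ι) {s d : ℕ} (f : ι → MvPolynomial σ K)
    (h : ∀ j ∈ t, Sp s d (f j)) : Sp (#t * s) d (∑ j ∈ t, f j) := by
  classical
  induction t using Finset.induction_on with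
  | empty => simpa using Sp.zero _ d
  | insert a t ha ih =>
    rw [Finset.sum_insert ha, Finset.card_insert_of_notMem ha]
    have h1 := (h a (Finset.mem_insert_self a t)).add
      (ih fun j hj => h j (Finset.mem_insert_of_mem hj))
    exact h1.mono (by rw [Nat.add_mul, one_mul, add_comm]) le_rfl

lemma Sp.C_mul {s d : ℕ} {f : MvPolynomial σ K} (hf : Sp s d f) (c : K) :
    Sp s d (C c * f) := by
  classical
  refine ⟨?_, fun i => (degreeOf_C_mul_le f i c).trans (hf.2 i)⟩
  refine (Finset.card_le_card ?_).trans hf.1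
  intro m hm
  rw [mem_support_iff, coeff_C_mul] at hm
  exact mem_support_iff.2 fun h => hm (by rw [h, mul_zero])

lemma Sp.zsmul_unit {s d : ℕ} {f : MvPolynomial σ K} (hf : Sp s d f) (u : ℤˣ) :
    Sp s d (u • f) := by
  have : u • f = C ((u : ℤ) : K) * f := by
    rw [map_intCast, Units.smul_def, zsmul_eq_mul]
  rw [this]
  exact hf.C_mul _

/-- determinants -/
theorem Sp.det [Nontrivial K] {m s d : ℕ} (M : Matrix (Fin m) (Fin m) (MvPolynomial σ K))
    (h : ∀ i j, Sp s d (M i j)) : Sp (m.factorial * s ^ m) (m * d) M.det := by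
  classical
  rw [Matrix.det_apply]
  have h1 := Sp.sum (Finset.univ : Finset (Equiv.Perm (Fin m)))
    (s := s ^ m) (d := m * d) (fun τ => Equiv.Perm.sign τ • ∏ i, M (τ i) i)
    (fun τ _ => Sp.zsmul_unit (by
      have := Sp.prod (Finset.univ : Finset (Fin m)) (fun i => M (τ i) i) (s := s) (d := d)
        (fun i _ => h _ _)
      rwa [Finset.card_univ, Fintype.card_fin] at this) _)
  rwa [Finset.card_univ, Fintype.card_perm, Fintype.card_fin] at h1

/-- additive operators sending each term to a term with a smaller exponent do not increase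
sparsity nor individual degrees -/
theorem Sp.map_terms {s d : ℕ} {f : MvPolynomial σ K} (hf : Sp s d f)
    (L : MvPolynomial σ K →+ MvPolynomial σ K) (c : (σ →₀ ℕ) → K → K)
    (e : (σ →₀ ℕ) → (σ →₀ ℕ)) (he : ∀ m i, e m i ≤ m i)
    (hL : ∀ m a, L (monomial m a) = monomial (e m) (c m a)) : Sp s d (L f) := by
  classical
  have hexp : L f = ∑ m ∈ f.support, monomial (e m) (c m (coeff m f)) := by
    conv_lhs => rw [f.as_sum]
    rw [map_sum]
    exact Finset.sum_congr rfl fun m _ => hL _ _
  have hsup : (L f).support ⊆ f.support.image e := by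
    rw [hexp]
    refine (MvPolynomial.support_sum).trans ?_
    intro m hm
    rw [Finset.mem_biUnion] at hm
    obtain ⟨m', hm', h⟩ := hm
    have := support_monomial_subset h
    rw [Finset.mem_singleton] at this
    exact Finset.mem_image.2 ⟨m', hm', this.symm⟩
  refine ⟨(Finset.card_le_card hsup).trans (Finset.card_image_le.trans hf.1), fun i => ?_⟩
  rw [degreeOf_le_iff]
  intro m hm
  obtain ⟨m', hm', rfl⟩ := Finset.mem_image.1 (hsup hm)
  exact (he m' i).trans ((monomial_le_degreeOf i hm').trans (hf.2 i))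

lemma Sp.pderiv {s d : ℕ} {f : MvPolynomial σ K} (hf : Sp s d f) (i : σ) :
    Sp s d (MvPolynomial.pderiv i f) := by
  classical
  refine hf.map_terms (L := (MvPolynomial.pderiv i : Derivation K _ _).toLinearMap.toAddMonoidHom)
    (fun m a => a * (m i : K)) (fun m => m - Finsupp.single i 1) (fun m j => ?_) (fun m a => ?_)
  · rw [Finsupp.tsub_apply]
    exact Nat.sub_le _ _
  · exact pderiv_monomial

lemma Sp.pderiv_iter {s d : ℕ} {f : MvPolynomial σ K} (hf : Sp s d f) (i : σ) (r : ℕ) :
    Sp s d ((MvPolynomial.pderiv i)^[r] f) := by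
  induction r with
  | zero => simpa using hf
  | succ r ih =>
    rw [Function.iterate_succ_apply']
    exact ih.pderiv i

/-- the Hasse derivative with multi-index `β` -/
noncomputable def hasse (β : σ →₀ ℕ) : MvPolynomial σ K →ₗ[K] MvPolynomial σ K :=
  (basisMonomials σ K).constr K
    (fun m : σ →₀ ℕ => monomial (m - β) (β.prod fun i b => ((m i).choose b : K)))

lemma hasse_monomial (β m : σ →₀ ℕ) (a : K) :
    hasse β (monomial m a) = monomial (m - β) (a * β.prod fun i b => ((m i).choose b : K)) := by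
  have h1 : (monomial m a : MvPolynomial σ K) = a • basisMonomials σ K m := by
    rw [coe_basisMonomials, smul_monomial, smul_eq_mul, mul_one]
  rw [h1, map_smul, hasse, Module.Basis.constr_basis, smul_monomial, smul_eq_mul]

lemma Sp.hasse {s d : ℕ} {f : MvPolynomial σ K} (hf : Sp s d f) (β : σ →₀ ℕ) :
    Sp s d (hasse β f) := by
  refine hf.map_terms (KS.hasse β).toAddMonoidHom
    (fun m a => a * β.prod fun i b => ((m i).choose b : K))
    (fun m => m - β) (fun m j => ?_) (fun m a => hasse_monomial _ _ _)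
  rw [Finsupp.tsub_apply]
  exact Nat.sub_le _ _

end KS
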