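import Mathlib

/-!
# Read-once compositions: definitions
-/

namespace Pool.Agent.Helper7.ReadOnceFormulas

open MvPolynomial Finset

universe u v

/-- `ReadOnce K σ t s D X f`: the polynomial `f` is computed by a read-once formula that reads
exactly the variables in `X`.  A leaf computes an arbitrary polynomial with at most `s` monomials
and of total degree at most `D`; a gate applies an *arbitrary* polynomial `g` in `m ≤ t`
indeterminates to the outputs `u 0, …, u (m-1)` of `m` formulas that read pairwise disjoint sets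
of variables.  The depth is unbounded. -/
inductive ReadOnce (K : Type u) (σ : Type v) [Field K] (t s D : ℕ) :
    Set σ → MvPolynomial σ K → Prop
  | leaf (b : MvPolynomial σ K) (hs : #b.support ≤ s) (hD : b.totalDegree ≤ D) :
      ReadOnce K σ t s D {i | i ∈ b.vars} b
  | gate (m : ℕ) (hm : m ≤ t) (g : MvPolynomial (Fin m) K) (X : Fin m → Set σ)
      (u : Fin m → MvPolynomial σ K) (hu : ∀ j, ReadOnce K σ t s D (X j) (u j))
      (hX : ∀ i j, i ≠ j → Disjoint (X i) (X j)) :
      ReadOnce K σ t s D (⋃ j, X j) (bind₁ u g)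

/-- The point with coordinates
`y * w ^ (r ^ k mod p) * ∏ c, ∏ j ≠ k, (z c - a j)` for `k < n`. -/
def point {K : Type u} [Field K] {n q : ℕ} (a : Fin n → K) (p r : ℕ) (w y : K) (z : Fin q → K) :
    Fin n → K :=
  fun k => y * w ^ (r ^ (k : ℕ) % p) * ∏ c, ∏ j ∈ univ.erase k, (z c - a j)

/-- The hitting set: all points with `r < p`, `w ∈ W`, `y ∈ Y` and `z 0, …, z (t - 2) ∈ Z`. -/
noncomputable def hittingSet {K : Type u} [Field K] {n : ℕ} (a : Fin n → K) (t p : ℕ)
    (W Y Z : Finset K) : Finset (Fin n → K) :=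
  open Classical in
  (range p ×ˢ W ×ˢ Y ×ˢ Fintype.piFinset fun _ : Fin (t - 1) => Z).image
    fun x => point a p x.1 x.2.1 x.2.2.1 x.2.2.2

end Pool.Agent.Helper7.ReadOnceFormulas
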