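import Mathlib

/-!
Helper lemmas for the read-once composition theorem.
-/

namespace Pool.Agent.Helper7.RO

open MvPolynomial Finset

variable {K : Type*} [Field K] {σ τ ι : Type*} [Fintype σ]

/-- twisted component -/
noncomputable def tw (Q : σ → Polynomial K) (r : ℕ) (U : MvPolynomial σ K) : MvPolynomial σ K :=
  ∑ e ∈ U.support, monomial e (coeff e U * (∏ k, Q k ^ e k).coeff r)

lemma coeff_tw (Q : σ → Polynomial K) (r : ℕ) (U : MvPolynomial σ K) (e : σ →₀ ℕ) :
    coeff e (tw Q r U) = coeff e U * (∏ k, Q k ^ e k).coeff r := by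
  classical
  unfold tw
  rw [coeff_sum]
  simp only [coeff_monomial]
  by_cases he : e ∈ U.support
  · rw [Finset.sum_eq_single e]
    · simp
    · intro b _ hb
      simp [hb]
    · intro h
      exact absurd he h
  · rw [Finset.sum_eq_zero]
    · rw [notMem_support_iff.mp he]
      simp
    · intro b hb
      rw [if_neg]
      rintro rfl
      exact he hb

lemma mem_support_tw {Q : σ → Polynomial K} {r : ℕ} {U : MvPolynomial σ K} {e : σ →₀ ℕ}
    (he : e ∈ (tw Q r U).support) : e ∈ U.support ∧ (∏ k, Q k ^ e k).coeff r ≠ 0 := by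
  rw [mem_support_iff, coeff_tw] at he
  refine ⟨?_, right_ne_zero_of_mul he⟩
  rw [mem_support_iff]
  exact left_ne_zero_of_mul he

/-- the univariate expansion -/
noncomputable def ex (Q : σ → Polynomial K) (x : σ → K) (U : MvPolynomial σ K) : Polynomial K :=
  eval₂ Polynomial.C (fun k => Polynomial.C (x k) * Q k) U

lemma ex_eq (Q : σ → Polynomial K) (x : σ → K) (U : MvPolynomial σ K) :
    ex Q x U = ∑ e ∈ U.support, Polynomial.C (coeff e U * ∏ k, x k ^ e k) * ∏ k, Q k ^ e k := by
  unfold ex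
  rw [eval₂_eq']
  refine Finset.sum_congr rfl fun e _ => ?_
  rw [map_mul, map_prod]
  simp only [mul_pow, map_pow]
  rw [Finset.prod_mul_distrib]
  ring

lemma coeff_ex (Q : σ → Polynomial K) (x : σ → K) (U : MvPolynomial σ K) (r : ℕ) :
    (ex Q x U).coeff r = eval x (tw Q r U) := by
  rw [ex_eq, Polynomial.finsetSum_coeff]
  unfold tw
  rw [map_sum]
  refine Finset.sum_congr rfl fun e _ => ?_
  rw [Polynomial.coeff_C_mul, eval_monomial, Finsupp.prod_fintype _ _ (by simp)]
  ring

lemma eval_ex (Q : σ → Polynomial K) (x : σ → K) (U : MvPolynomial σ K) (z : K) :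
    (ex Q x U).eval z = eval (fun k => x k * (Q k).eval z) U := by
  unfold ex
  rw [eval_eq', eval₂_eq', Polynomial.eval_finsetSum]
  refine Finset.sum_congr rfl fun e _ => ?_
  simp [Polynomial.eval_prod]

/-- key step: lowest coefficients -/
lemma lowest {ι : Type*} [Fintype ι] (F : ι → Polynomial K) (m : ι → ℕ)
    (hF : ∀ j, ∀ r < m j, (F j).coeff r = 0)
    (A : Finset (ι → ℕ)) (c : (ι → ℕ) → K) (M : ℕ) (hM : ∀ α ∈ A, M ≤ ∑ j, α j * m j)
    (hzero : ∑ α ∈ A, Polynomial.C (c α) * ∏ j, F j ^ α j = 0) :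
    ∑ α ∈ A with ∑ j, α j * m j = M, c α * ∏ j, (F j).coeff (m j) ^ α j = 0 := by
  classical
  have h1 : ∀ j, ∃ G : Polynomial K, F j = Polynomial.X ^ m j * G := fun j => by
    have := (Polynomial.X_pow_dvd_iff (n := m j) (f := F j)).2 (hF j)
    exact this
  choose G hG using h1
  have hG0 : ∀ j, (F j).coeff (m j) = (G j).eval 0 := by
    intro j
    conv_lhs => rw [hG j]
    rw [← Polynomial.coeff_zero_eq_eval_zero]
    have := Polynomial.coeff_X_pow_mul (G j) (m j) 0
    simpa using this
  have h2 : ∑ α ∈ A, Polynomial.C (c α) * ∏ j, F j ^ α j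
      = Polynomial.X ^ M * ∑ α ∈ A, Polynomial.C (c α) *
        (Polynomial.X ^ (∑ j, α j * m j - M) * ∏ j, G j ^ α j) := by
    rw [Finset.mul_sum]
    refine Finset.sum_congr rfl fun α hα => ?_
    have h3 : ∏ j, F j ^ α j = Polynomial.X ^ (∑ j, α j * m j) * ∏ j, G j ^ α j := by
      rw [← Finset.prod_pow_eq_pow_sum, ← Finset.prod_mul_distrib]
      refine Finset.prod_congr rfl fun j _ => ?_
      rw [hG j, mul_pow, ← pow_mul, mul_comm (m j)]
    rw [h3]
    conv_lhs => rw [← Nat.add_sub_cancel' (hM α hα), pow_add]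
    ring
  rw [h2] at hzero
  have h4 := (mul_eq_zero.mp hzero).resolve_left (pow_ne_zero _ Polynomial.X_ne_zero)
  have h5 := congrArg (Polynomial.eval 0) h4
  rw [Polynomial.eval_finsetSum, Polynomial.eval_zero] at h5
  rw [← h5, Finset.sum_filter]
  refine Finset.sum_congr rfl fun α hα => ?_
  rw [Polynomial.eval_mul, Polynomial.eval_mul, Polynomial.eval_pow, Polynomial.eval_X,
    Polynomial.eval_C, Polynomial.eval_prod]
  split_ifs with h
  · rw [h]
    simp [hG0]
  · have : ∑ j, α j * m j - M ≠ 0 := by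
      have := hM α hα
      omega
    simp [this]

end Pool.Agent.Helper7.RO
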