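import Mathlib
import Pool.Agent.Helper7.RO1

namespace Pool.Agent.Helper7.RO

open MvPolynomial Finset

variable {K : Type*} [Field K] {σ τ ι : Type*} [Fintype σ] [DecidableEq σ]

/-- the value at `x` of the unnormalised Lagrange polynomial of the node `a k` -/
def L (a : σ → K) (k : σ) (x : K) : K := ∏ j ∈ univ.erase k, (x - a j)

noncomputable def Lp (a : σ → K) (k : σ) : Polynomial K :=
  ∏ j ∈ univ.erase k, (Polynomial.X - Polynomial.C (a j))

lemma eval_Lp (a : σ → K) (k : σ) (x : K) : (Lp a k).eval x = L a k x := by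
  simp [Lp, L, Polynomial.eval_prod]

lemma natDegree_Lp (a : σ → K) (k : σ) : (Lp a k).natDegree = Fintype.card σ - 1 := by
  unfold Lp
  rw [Polynomial.natDegree_prod_of_monic]
  · simp [Finset.card_erase_of_mem]
  · intro j _
    exact Polynomial.monic_X_sub_C (a j)

/-- point of the generator without the scaling parameter -/
noncomputable def pt (a : σ → K) (h : σ → MvPolynomial τ K) {q : ℕ} (w : τ → K) (z : Fin q → K) :
    σ → K := fun k => eval w (h k) * ∏ c, L a k (z c)

def NV (a : σ → K) (h : σ → MvPolynomial τ K) (q : ℕ) (U : MvPolynomial σ K) : Prop :=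
  ∃ (w : τ → K) (z : Fin q → K), eval (pt a h w z) U ≠ 0

/-- polynomial version of the generator -/
noncomputable def G (a : σ → K) (h : σ → MvPolynomial τ K) (q : ℕ) (k : σ) :
    MvPolynomial (τ ⊕ Fin q) K :=
  rename Sum.inl (h k) * ∏ c : Fin q, ∏ j ∈ univ.erase k, (X (Sum.inr c) - C (a j))

lemma eval_bind₁' {α β : Type*} (x : β → K) (f : α → MvPolynomial β K) (U : MvPolynomial α K) :
    eval x (bind₁ f U) = eval (fun i => eval x (f i)) U :=
  eval₂Hom_bind₁ (RingHom.id K) x f U

lemma eval_G (a : σ → K) (h : σ → MvPolynomial τ K) (q : ℕ) (x : τ ⊕ Fin q → K)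
    (U : MvPolynomial σ K) :
    eval x (bind₁ (G a h q) U) = eval (pt a h (x ∘ Sum.inl) (x ∘ Sum.inr)) U := by
  rw [eval_bind₁']
  congr 2
  funext k
  simp [G, pt, L, eval_rename]

lemma NV_iff (a : σ → K) (h : σ → MvPolynomial τ K) [Infinite K] (q : ℕ) (U : MvPolynomial σ K) :
    NV a h q U ↔ bind₁ (G a h q) U ≠ 0 := by
  constructor
  · rintro ⟨w, z, hwz⟩ h0
    apply hwz
    have := eval_G a h q (Sum.elim w z) U
    rw [h0, map_zero] at this
    simpa using this.symm
  · intro h0
    by_contra hcon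
    apply h0
    apply MvPolynomial.funext
    intro x
    rw [eval_G, map_zero]
    by_contra h1
    exact hcon ⟨_, _, h1⟩

lemma common_NV (a : σ → K) (h : σ → MvPolynomial τ K) [Infinite K] (q : ℕ) {ι : Type*}
    (s : Finset ι) (U : ι → MvPolynomial σ K) (hU : ∀ j ∈ s, NV a h q (U j)) :
    ∃ (w : τ → K) (z : Fin q → K), ∀ j ∈ s, eval (pt a h w z) (U j) ≠ 0 := by
  have h1 : ∏ j ∈ s, bind₁ (G a h q) (U j) ≠ 0 := by
    rw [Finset.prod_ne_zero_iff]
    intro j hj
    exact (NV_iff a h q (U j)).1 (hU j hj)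
  by_contra hcon
  push Not at hcon
  apply h1
  apply MvPolynomial.funext
  intro x
  rw [map_prod, map_zero]
  obtain ⟨j, hj, hj0⟩ := hcon (x ∘ Sum.inl) (x ∘ Sum.inr)
  apply Finset.prod_eq_zero hj
  rw [eval_G, hj0]

end Pool.Agent.Helper7.RO
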