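import Mathlib
import Pool.Agent.Helper7.RO2

namespace Pool.Agent.Helper7.RO

open MvPolynomial Finset

variable {K : Type*} [Field K] {σ τ ι : Type*} [Fintype σ] [DecidableEq σ]

def Fits (U : MvPolynomial σ K) (p : ℕ) (X : Finset σ) : Prop :=
  ∀ e ∈ U.support, (∑ k, e k = p) ∧ ∀ k ∉ X, e k = 0

omit [DecidableEq σ] in
lemma Fits.tw {U : MvPolynomial σ K} {p : ℕ} {X : Finset σ} (hU : Fits U p X)
    (Q : σ → Polynomial K) (r : ℕ) : Fits (tw Q r U) p X :=
  fun e he => hU e (mem_support_tw he).1

lemma natDegree_ex_le {a : σ → K} {U : MvPolynomial σ K} {p : ℕ} {X : Finset σ}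
    (hU : Fits U p X) (x : σ → K) :
    (ex (Lp a) x U).natDegree ≤ p * (Fintype.card σ - 1) := by
  rw [ex_eq]
  apply Polynomial.natDegree_sum_le_of_forall_le
  intro e he
  refine (Polynomial.natDegree_C_mul_le _ _).trans ?_
  refine (Polynomial.natDegree_prod_le _ _).trans ?_
  rw [← (hU e he).1, Finset.sum_mul]
  apply Finset.sum_le_sum
  intro k _
  refine Polynomial.natDegree_pow_le.trans ?_
  rw [natDegree_Lp]

lemma dvd_ex {a : σ → K} {U : MvPolynomial σ K} {p : ℕ} {X : Finset σ}
    (hU : Fits U p X) (x : σ → K) {i : σ} (hi : i ∉ X) :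
    (Polynomial.X - Polynomial.C (a i)) ^ p ∣ ex (Lp a) x U := by
  rw [ex_eq]
  apply Finset.dvd_sum
  intro e he
  apply Dvd.dvd.mul_left
  rw [← (hU e he).1, ← Finset.prod_pow_eq_pow_sum]
  apply Finset.prod_dvd_prod_of_dvd
  intro k _
  by_cases hk : k = i
  · subst hk
    rw [(hU e he).2 k hi]
    simp
  · apply pow_dvd_pow_of_dvd
    unfold Lp
    apply Finset.dvd_prod_of_mem (fun j => Polynomial.X - Polynomial.C (a j))
    simp [Ne.symm hk]

/-- recentred Lagrange polynomials -/
noncomputable def Q (a : σ → K) (i k : σ) : Polynomial K :=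
  (Lp a k).comp (Polynomial.X + Polynomial.C (a i))

lemma ex_comp (a : σ → K) (i : σ) (x : σ → K) (U : MvPolynomial σ K) :
    ex (Q a i) x U = (ex (Lp a) x U).comp (Polynomial.X + Polynomial.C (a i)) := by
  rw [ex_eq, ex_eq, Polynomial.sum_comp]
  refine Finset.sum_congr rfl fun e _ => ?_
  rw [Polynomial.mul_comp, Polynomial.C_comp, Polynomial.prod_comp]
  simp [Q]

lemma pt_cons (a : σ → K) (h : σ → MvPolynomial τ K) {q : ℕ} (w : τ → K) (z0 : K)
    (z : Fin q → K) (k : σ) :
    pt a h w (Fin.cons z0 z : Fin (q + 1) → K) k = pt a h w z k * (Lp a k).eval z0 := by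
  simp [pt, Fin.prod_univ_succ, eval_Lp]
  ring

lemma eval_pt_cons (a : σ → K) (h : σ → MvPolynomial τ K) {q : ℕ} (w : τ → K) (z0 : K)
    (z : Fin q → K) (U : MvPolynomial σ K) :
    eval (pt a h w (Fin.cons z0 z : Fin (q + 1) → K)) U = (ex (Lp a) (pt a h w z) U).eval z0 := by
  rw [eval_ex]
  congr 2
  funext k
  exact pt_cons a h w z0 z k

lemma exists_ord {a : σ → K} {h : σ → MvPolynomial τ K} {q : ℕ} {U : MvPolynomial σ K}
    (hU : NV a h (q + 1) U) (i : σ) : ∃ m, NV a h q (tw (Q a i) m U) := by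
  obtain ⟨w, z, hwz⟩ := hU
  rw [← Fin.cons_self_tail z, eval_pt_cons] at hwz
  have h1 : ex (Lp a) (pt a h w (Fin.tail z)) U ≠ 0 := by
    intro h0
    rw [h0] at hwz
    simp at hwz
  have h2 : ex (Q a i) (pt a h w (Fin.tail z)) U ≠ 0 := by
    rw [ex_comp]
    intro h0
    apply h1
    rw [Polynomial.comp_eq_zero_iff] at h0
    rcases h0 with h0 | ⟨_, h0⟩
    · exact h0
    · exfalso
      have := congrArg (fun p => Polynomial.coeff p 1) h0
      simp at this
  obtain ⟨m, hm⟩ : ∃ m, (ex (Q a i) (pt a h w (Fin.tail z)) U).coeff m ≠ 0 := by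
    by_contra hcon
    push Not at hcon
    exact h2 (Polynomial.ext (by simpa using hcon))
  rw [coeff_ex] at hm
  exact ⟨m, w, Fin.tail z, hm⟩

/-- the generic order of `U` on the generator along the divisor `z = a i` -/
noncomputable def ord {a : σ → K} {h : σ → MvPolynomial τ K} {q : ℕ} {U : MvPolynomial σ K}
    (hU : NV a h (q + 1) U) (i : σ) : ℕ :=
  @Nat.find _ (Classical.decPred _) (exists_ord hU i)

lemma ord_spec {a : σ → K} {h : σ → MvPolynomial τ K} {q : ℕ} {U : MvPolynomial σ K}
    (hU : NV a h (q + 1) U) (i : σ) : NV a h q (tw (Q a i) (ord hU i) U) :=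
  @Nat.find_spec _ (Classical.decPred _) (exists_ord hU i)

lemma coeff_eq_zero_of_lt_ord {a : σ → K} {h : σ → MvPolynomial τ K} {q : ℕ}
    {U : MvPolynomial σ K} (hU : NV a h (q + 1) U) (i : σ) (w : τ → K) (z : Fin q → K) (r : ℕ)
    (hr : r < ord hU i) : (ex (Q a i) (pt a h w z) U).coeff r = 0 := by
  rw [coeff_ex]
  by_contra hcon
  exact @Nat.find_min _ (Classical.decPred _) (exists_ord hU i) r hr ⟨w, z, hcon⟩

lemma pow_ord_dvd {a : σ → K} {h : σ → MvPolynomial τ K} {q : ℕ}
    {U : MvPolynomial σ K} (hU : NV a h (q + 1) U) (i : σ) (w : τ → K) (z : Fin q → K) :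
    (Polynomial.X - Polynomial.C (a i)) ^ ord hU i ∣ ex (Lp a) (pt a h w z) U := by
  rw [Polynomial.X_sub_C_pow_dvd_iff, ← ex_comp, Polynomial.X_pow_dvd_iff]
  intro r hr
  exact coeff_eq_zero_of_lt_ord hU i w z r hr

lemma le_ord {a : σ → K} {h : σ → MvPolynomial τ K} {q : ℕ}
    {U : MvPolynomial σ K} (hU : NV a h (q + 1) U) {p : ℕ} {X : Finset σ} (hF : Fits U p X)
    {i : σ} (hi : i ∉ X) : p ≤ ord hU i := by
  by_contra hlt
  push Not at hlt
  obtain ⟨w, z, hwz⟩ := ord_spec hU i
  rw [← coeff_ex] at hwz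
  apply hwz
  have h1 := dvd_ex (a := a) hF (pt a h w z) hi
  rw [Polynomial.X_sub_C_pow_dvd_iff, ← ex_comp, Polynomial.X_pow_dvd_iff] at h1
  exact h1 _ hlt

/-- the separation lemma -/
lemma separate {a : σ → K} (ha : Function.Injective a) {h : σ → MvPolynomial τ K} [Infinite K]
    {q : ℕ} {ι : Type*} [Fintype ι] (U : ι → MvPolynomial σ K) (p : ι → ℕ) (X : ι → Finset σ)
    (hF : ∀ j, Fits (U j) (p j) (X j)) (hp : ∀ j, 1 ≤ p j)
    (hX : Pairwise fun j j' => Disjoint (X j) (X j'))
    (hU : ∀ j, NV a h (q + 1) (U j)) (α β : ι → ℕ) (hαβ : α ≠ β)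
    (hsum : ∑ j, α j * p j = ∑ j, β j * p j) :
    ∃ i, ∑ j, α j * ord (hU j) i ≠ ∑ j, β j * ord (hU j) i := by
  classical
  by_contra hcon
  push Not at hcon
  -- truncated differences
  set P : ι → ℕ := fun j => α j - β j with hP
  set R : ι → ℕ := fun j => β j - α j with hR
  have key : ∀ m : ι → ℕ, ∑ j, α j * m j = ∑ j, β j * m j → ∑ j, P j * m j = ∑ j, R j * m j := by
    intro m hm
    have h1 : ∑ j, α j * m j + ∑ j, R j * m j = ∑ j, β j * m j + ∑ j, P j * m j := by
      rw [← Finset.sum_add_distrib, ← Finset.sum_add_distrib]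
      refine Finset.sum_congr rfl fun j _ => ?_
      rw [← add_mul, ← add_mul]
      congr 1
      simp only [hP, hR]
      omega
    omega
  set N := ∑ j, P j * p j with hN
  have hN2 : N = ∑ j, R j * p j := key p hsum
  have hNpos : 0 < N := by
    rcases Nat.eq_zero_or_pos N with h0 | h0
    · exfalso
      apply hαβ
      funext j
      have h1 : P j * p j = 0 := by
        have := (Finset.sum_eq_zero_iff.1 (hN ▸ h0)) j (Finset.mem_univ j)
        simpa using this
      have h2 : R j * p j = 0 := by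
        have := (Finset.sum_eq_zero_iff.1 (hN2 ▸ h0)) j (Finset.mem_univ j)
        simpa using this
      have hpj := hp j
      have h3 : P j = 0 := by
        rcases Nat.mul_eq_zero.1 h1 with h | h
        · exact h
        · omega
      have h4 : R j = 0 := by
        rcases Nat.mul_eq_zero.1 h2 with h | h
        · exact h
        · omega
      simp only [hP, hR] at h3 h4
      omega
    · exact h0
  obtain ⟨w, z, hwz⟩ := common_NV a h (q + 1) univ U (fun j _ => hU j)
  have hwz' : ∀ j, ex (Lp a) (pt a h w (Fin.tail z)) (U j) ≠ 0 := by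
    intro j h0
    apply hwz j (Finset.mem_univ j)
    rw [← Fin.cons_self_tail z, eval_pt_cons, h0, Polynomial.eval_zero]
  set x := pt a h w (Fin.tail z) with hx
  set F : Polynomial K := ∏ j, ex (Lp a) x (U j) ^ P j with hFdef
  have hF0 : F ≠ 0 := by
    rw [hFdef, Finset.prod_ne_zero_iff]
    intro j _
    exact pow_ne_zero _ (hwz' j)
  have hdeg : F.natDegree ≤ N * (Fintype.card σ - 1) := by
    rw [hFdef, hN, Finset.sum_mul]
    refine (Polynomial.natDegree_prod_le _ _).trans ?_
    apply Finset.sum_le_sum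
    intro j _
    refine Polynomial.natDegree_pow_le.trans ?_
    rw [mul_assoc]
    exact Nat.mul_le_mul_left _ (natDegree_ex_le (hF j) x)
  have hdvd : ∀ i, (Polynomial.X - Polynomial.C (a i)) ^ N ∣ F := by
    intro i
    have h1 : N ≤ ∑ j, P j * ord (hU j) i := by
      by_cases hi : ∃ j, 0 < P j ∧ i ∈ X j
      · obtain ⟨j0, hj0, hij0⟩ := hi
        rw [key _ (hcon i), hN2]
        apply Finset.sum_le_sum
        intro j _
        by_cases hRj : R j = 0
        · simp [hRj]
        · apply Nat.mul_le_mul_left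
          apply le_ord (hU j) (hF j)
          have hne : j0 ≠ j := by
            rintro rfl
            simp only [hP, hR] at hj0 hRj
            omega
          exact Finset.disjoint_left.1 (hX hne) hij0
      · push Not at hi
        rw [hN]
        apply Finset.sum_le_sum
        intro j _
        by_cases hPj : P j = 0
        · simp [hPj]
        · apply Nat.mul_le_mul_left
          exact le_ord (hU j) (hF j) (hi j (Nat.pos_of_ne_zero hPj))
    refine (pow_dvd_pow _ h1).trans ?_
    rw [hFdef, ← Finset.prod_pow_eq_pow_sum]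
    apply Finset.prod_dvd_prod_of_dvd
    intro j _
    rw [mul_comm (P j), pow_mul]
    exact pow_dvd_pow_of_dvd (pow_ord_dvd (hU j) i w (Fin.tail z)) _
  have hprod : ∏ i : σ, (Polynomial.X - Polynomial.C (a i)) ^ N ∣ F := by
    apply Finset.prod_dvd_of_coprime
    · intro i _ i' _ hii'
      exact (Polynomial.pairwise_coprime_X_sub_C ha hii').pow
    · intro i _
      exact hdvd i
  have h5 := Polynomial.natDegree_le_of_dvd hprod hF0
  rw [Polynomial.natDegree_prod_of_monic] at h5
  · have h6 : ∑ i : σ, ((Polynomial.X - Polynomial.C (a i)) ^ N).natDegree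
        = Fintype.card σ * N := by
      simp
    rw [h6] at h5
    have h7 := h5.trans hdeg
    -- σ is nonempty
    have hσ : 0 < Fintype.card σ := by
      rw [Fintype.card_pos_iff]
      by_contra hempty
      rw [not_nonempty_iff] at hempty
      -- then all U j vanish
      have hj : ∃ j, P j ≠ 0 := by
        by_contra hall
        push Not at hall
        rw [hN] at hNpos
        simp [hall] at hNpos
      obtain ⟨j, _⟩ := hj
      obtain ⟨w', z', h'⟩ := hU j
      apply h'
      have : U j = 0 := by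
        by_contra hne
        obtain ⟨e, he⟩ := MvPolynomial.support_nonempty.2 hne
        have := (hF j e he).1
        have h2 := hp j
        simp at this
        omega
      rw [this, map_zero]
    obtain ⟨s, hs⟩ := Nat.exists_eq_succ_of_ne_zero hσ.ne'
    rw [hs] at h7
    simp only [Nat.succ_eq_add_one, Nat.add_sub_cancel] at h7
    nlinarith
  · intro i _
    exact (Polynomial.monic_X_sub_C (a i)).pow N

end Pool.Agent.Helper7.RO
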