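import Mathlib
import Pool.Agent.Helper7.RO3

namespace Pool.Agent.Helper7.RO

open MvPolynomial Finset

variable {K : Type*} [Field K] {σ τ ι : Type*} [Fintype σ] [DecidableEq σ]

/-- a linear functional on `ι → ℚ` with natural coefficients -/
noncomputable def fn {ι : Type*} [Fintype ι] (m : ι → ℕ) : (ι → ℚ) →ₗ[ℚ] ℚ :=
  ∑ j, (m j : ℚ) • LinearMap.proj j

lemma fn_apply {ι : Type*} [Fintype ι] (m : ι → ℕ) (v : ι → ℚ) : fn m v = ∑ j, (m j : ℚ) * v j := by
  simp [fn]

lemma fn_sub {ι : Type*} [Fintype ι] (m α β : ι → ℕ) :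
    fn m (fun j => (α j : ℚ) - β j) = ((∑ j, α j * m j : ℕ) : ℚ) - ((∑ j, β j * m j : ℕ) : ℚ) := by
  rw [fn_apply]
  push_cast
  rw [← Finset.sum_sub_distrib]
  refine Finset.sum_congr rfl fun j _ => ?_
  ring

/-- The core lemma: independence of the leading forms. -/
theorem core {a : σ → K} (ha : Function.Injective a) {h : σ → MvPolynomial τ K} [Infinite K]
    {ι : Type*} [Fintype ι] (p : ι → ℕ) (X : ι → Finset σ) (hp : ∀ j, 1 ≤ p j)
    (hX : Pairwise fun j j' => Disjoint (X j) (X j')) (N : ℕ) :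
    ∀ (q : ℕ) (U : ι → MvPolynomial σ K) (_ : ∀ j, Fits (U j) (p j) (X j))
      (_ : ∀ j, NV a h q (U j)) (A : Finset (ι → ℕ)) (_ : A.Nonempty) (c : (ι → ℕ) → K)
      (_ : ∀ α ∈ A, c α ≠ 0) (_ : ∀ α ∈ A, ∑ j, α j * p j = N) (V : Submodule ℚ (ι → ℚ))
      (_ : Module.finrank ℚ V ≤ q)
      (_ : ∀ α ∈ A, ∀ β ∈ A, (fun j => (α j : ℚ) - β j) ∈ V),
      ∃ (w : τ → K) (z : Fin q → K), ∑ α ∈ A, c α * ∏ j, eval (pt a h w z) (U j) ^ α j ≠ 0 := by
  classical
  intro q
  induction q with
  | zero =>
    intro U hF hU A hA c hc hN V hV hAV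
    obtain ⟨α, hα⟩ := hA
    have hV0 : V = ⊥ := by
      apply Submodule.finrank_eq_zero.1
      omega
    have hsing : A = {α} := by
      apply Finset.eq_singleton_iff_unique_mem.2 ⟨hα, ?_⟩
      intro β hβ
      have h1 := hAV β hβ α hα
      rw [hV0, Submodule.mem_bot] at h1
      funext j
      have := congrFun h1 j
      simp only [Pi.zero_apply, sub_eq_zero] at this
      exact_mod_cast this
    obtain ⟨w, z, hwz⟩ := common_NV a h 0 univ U (fun j _ => hU j)
    refine ⟨w, z, ?_⟩
    rw [hsing, Finset.sum_singleton]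
    refine mul_ne_zero (hc α hα) ?_
    rw [Finset.prod_ne_zero_iff]
    intro j hj
    exact pow_ne_zero _ (hwz j hj)
  | succ q ih =>
    intro U hF hU A hA c hc hN V hV hAV
    by_cases hsub : ∀ α ∈ A, ∀ β ∈ A, α = β
    · obtain ⟨α, hα⟩ := hA
      have hsing : A = {α} := by
        apply Finset.eq_singleton_iff_unique_mem.2 ⟨hα, ?_⟩
        intro β hβ
        exact hsub β hβ α hα
      obtain ⟨w, z, hwz⟩ := common_NV a h (q + 1) univ U (fun j _ => hU j)
      refine ⟨w, z, ?_⟩
      rw [hsing, Finset.sum_singleton]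
      refine mul_ne_zero (hc α hα) ?_
      rw [Finset.prod_ne_zero_iff]
      intro j hj
      exact pow_ne_zero _ (hwz j hj)
    · push Not at hsub
      obtain ⟨α, hα, β, hβ, hαβ⟩ := hsub
      obtain ⟨i, hi⟩ := separate ha U p X hF hp hX hU α β hαβ ((hN α hα).trans (hN β hβ).symm)
      set m : ι → ℕ := fun j => ord (hU j) i with hm
      obtain ⟨γ, hγ, hγmin⟩ := Finset.exists_min_image A (fun α => ∑ j, α j * m j) hA
      set M := ∑ j, γ j * m j with hM
      set A' := A.filter (fun α => ∑ j, α j * m j = M) with hA'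
      have hA'sub : ∀ α ∈ A', α ∈ A ∧ ∑ j, α j * m j = M := fun α hα => by
        rw [hA', Finset.mem_filter] at hα
        exact hα
      set V' : Submodule ℚ (ι → ℚ) := V ⊓ LinearMap.ker (fn m) with hV'
      have hlt : V' < V := by
        refine lt_of_le_of_ne inf_le_left ?_
        intro heq
        have h1 : (fun j => (α j : ℚ) - β j) ∈ V' := heq ▸ hAV α hα β hβ
        rw [hV', Submodule.mem_inf, LinearMap.mem_ker, fn_sub, sub_eq_zero] at h1
        exact hi (by exact_mod_cast h1.2)
      have hfin : Module.finrank ℚ V' ≤ q := by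
        have := Submodule.finrank_lt_finrank_of_lt hlt
        omega
      obtain ⟨w, z, hwz⟩ := ih (fun j => tw (Q a i) (m j) (U j)) (fun j => (hF j).tw _ _)
        (fun j => ord_spec (hU j) i) A' ⟨γ, by rw [hA', Finset.mem_filter]; exact ⟨hγ, rfl⟩⟩ c
        (fun α hα => hc α (hA'sub α hα).1) (fun α hα => hN α (hA'sub α hα).1) V' hfin
        (fun α hα β hβ => by
          rw [hV', Submodule.mem_inf, LinearMap.mem_ker, fn_sub, sub_eq_zero]
          refine ⟨hAV α (hA'sub α hα).1 β (hA'sub β hβ).1, ?_⟩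
          rw [(hA'sub α hα).2, (hA'sub β hβ).2])
      by_contra hcon
      push Not at hcon
      apply hwz
      have h1 : ∑ α ∈ A, Polynomial.C (c α) * ∏ j, ex (Lp a) (pt a h w z) (U j) ^ α j = 0 := by
        apply Polynomial.funext
        intro z0
        rw [Polynomial.eval_zero, Polynomial.eval_finsetSum]
        rw [← hcon w (Fin.cons z0 z)]
        refine Finset.sum_congr rfl fun α _ => ?_
        rw [Polynomial.eval_mul, Polynomial.eval_C, Polynomial.eval_prod]
        congr 1
        refine Finset.prod_congr rfl fun j _ => ?_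
        rw [Polynomial.eval_pow, eval_pt_cons]
      have h2 : ∑ α ∈ A, Polynomial.C (c α) * ∏ j, ex (Q a i) (pt a h w z) (U j) ^ α j = 0 := by
        have := congrArg (fun P => P.comp (Polynomial.X + Polynomial.C (a i))) h1
        simp only [Polynomial.sum_comp, Polynomial.mul_comp, Polynomial.C_comp,
          Polynomial.prod_comp, Polynomial.pow_comp, Polynomial.zero_comp] at this
        rw [← this]
        refine Finset.sum_congr rfl fun α _ => ?_
        congr 1
        refine Finset.prod_congr rfl fun j _ => ?_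
        rw [ex_comp]
      have h3 := lowest (fun j => ex (Q a i) (pt a h w z) (U j)) m
        (fun j r hr => coeff_eq_zero_of_lt_ord (hU j) i w z r hr) A c M hγmin h2
      rw [← h3]
      refine Finset.sum_congr rfl fun α _ => ?_
      congr 1
      refine Finset.prod_congr rfl fun j _ => ?_
      rw [coeff_ex]

end Pool.Agent.Helper7.RO
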