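import Mathlib
import Pool.Agent.Helper7.RO4

namespace Pool.Agent.Helper7.RO

open MvPolynomial Finset

variable {K : Type*} [Field K] {σ τ ι : Type*} [Fintype σ] [DecidableEq σ]

/-- nonconstancy on the cone over the generator -/
def Good (a : σ → K) (h : σ → MvPolynomial τ K) (q : ℕ) (f : MvPolynomial σ K) : Prop :=
  ∃ (w : τ → K) (y : K) (z : Fin q → K), eval (fun k => y * pt a h w z k) f ≠ eval 0 f

/-- the constant family of polynomials `X` -/
noncomputable def QX : σ → Polynomial K := fun _ => Polynomial.X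

omit [DecidableEq σ] in
lemma coeff_QX {e : σ →₀ ℕ} {r : ℕ} (h : (∏ k, (QX (K := K) (σ := σ)) k ^ e k).coeff r ≠ 0) :
    ∑ k, e k = r := by
  unfold QX at h
  rw [Finset.prod_pow_eq_pow_sum, Polynomial.coeff_X_pow] at h
  by_contra hne
  exact h (if_neg (fun h' => hne h'.symm))

theorem closure {a : σ → K} (ha : Function.Injective a) {h : σ → MvPolynomial τ K} [Infinite K]
    {q : ℕ} {ι : Type*} [Fintype ι] (hι : Fintype.card ι ≤ q + 1) (u : ι → MvPolynomial σ K)
    (X : ι → Finset σ) (hX : Pairwise fun j j' => Disjoint (X j) (X j'))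
    (huX : ∀ j, ∀ e ∈ (u j).support, ∀ k ∉ X j, e k = 0)
    (hu : ∀ j, Good a h q (u j)) (g : MvPolynomial ι K) (hg : g ≠ 0) :
    ∃ (w : τ → K) (y : K) (z : Fin q → K),
      eval (fun k => y * pt a h w z k) (bind₁ u g) ≠ 0 := by
  classical
  set v : ι → MvPolynomial σ K := fun j => u j - C (eval 0 (u j)) with hv
  set g' : MvPolynomial ι K := bind₁ (fun j => MvPolynomial.X j + C (eval 0 (u j))) g with hg'
  have hbind : bind₁ u g = bind₁ v g' := by
    rw [hg', bind₁_bind₁]
    congr 2
    funext j
    simp [hv]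
  have hg'0 : g' ≠ 0 := by
    intro h0
    apply hg
    have h1 : bind₁ (fun j => MvPolynomial.X j - C (eval 0 (u j))) g' = g := by
      rw [hg', bind₁_bind₁]
      have : (fun i => (bind₁ fun j => MvPolynomial.X j - C (eval 0 (u j)))
          (MvPolynomial.X i + C (eval 0 (u i)))) = (MvPolynomial.X : ι → MvPolynomial ι K) := by
        funext j
        simp
      rw [this]
      simp
    rw [← h1, h0, map_zero]
  have hvE : ∀ j, ∃ r, NV a h q (tw QX r (v j)) := by
    intro j
    obtain ⟨w, y, z, hwyz⟩ := hu j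
    have h1 : (ex QX (pt a h w z) (v j)).eval y ≠ 0 := by
      rw [eval_ex]
      simp only [QX, Polynomial.eval_X]
      have : eval (fun k => pt a h w z k * y) (v j)
          = eval (fun k => y * pt a h w z k) (u j) - eval 0 (u j) := by
        simp only [hv, map_sub, eval_C]
        congr 3
        funext k
        ring
      rw [this]
      exact sub_ne_zero.2 hwyz
    obtain ⟨m, hm⟩ : ∃ m, (ex QX (pt a h w z) (v j)).coeff m ≠ 0 := by
      by_contra hcon
      push Not at hcon
      apply h1
      have : ex QX (pt a h w z) (v j) = 0 := Polynomial.ext (by simpa using hcon)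
      rw [this, Polynomial.eval_zero]
    rw [coeff_ex] at hm
    exact ⟨m, w, z, hm⟩
  set p : ι → ℕ := fun j => Nat.find (hvE j) with hpdef
  have hpspec : ∀ j, NV a h q (tw QX (p j) (v j)) := fun j => Nat.find_spec (hvE j)
  have hpmin : ∀ j, ∀ r < p j, ∀ (w : τ → K) (z : Fin q → K),
      (ex QX (pt a h w z) (v j)).coeff r = 0 := by
    intro j r hr w z
    rw [coeff_ex]
    by_contra hcon
    exact Nat.find_min (hvE j) hr ⟨w, z, hcon⟩
  have hvsupp : ∀ j, ∀ e ∈ (v j).support, e ≠ 0 ∧ ∀ k ∉ X j, e k = 0 := by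
    intro j e he
    rw [mem_support_iff] at he
    simp only [hv, coeff_sub, coeff_C] at he
    by_cases he0 : e = 0
    · subst he0
      exfalso
      apply he
      simp [constantCoeff_eq]
    · refine ⟨he0, ?_⟩
      rw [if_neg (Ne.symm he0), sub_zero] at he
      exact huX j e (mem_support_iff.2 he)
  have hF : ∀ j, Fits (tw QX (p j) (v j)) (p j) (X j) := by
    intro j e he
    obtain ⟨h1, h2⟩ := mem_support_tw he
    exact ⟨coeff_QX h2, (hvsupp j e h1).2⟩
  have hp1 : ∀ j, 1 ≤ p j := by
    intro j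
    by_contra hlt
    have h0 : p j = 0 := by omega
    obtain ⟨w, z, hwz⟩ := hpspec j
    have hne : tw QX (p j) (v j) ≠ 0 := by
      intro h0
      rw [h0, map_zero] at hwz
      exact hwz rfl
    obtain ⟨e, he⟩ := MvPolynomial.support_nonempty.2 hne
    have h1 := (hF j e he).1
    rw [h0] at h1
    apply (hvsupp j e (mem_support_tw he).1).1
    ext k
    have := (Finset.sum_eq_zero_iff.1 h1) k (Finset.mem_univ k)
    simpa using this
  -- exponents
  set E : (ι →₀ ℕ) ≃ (ι → ℕ) := Finsupp.equivFunOnFinite with hE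
  set A : Finset (ι → ℕ) := g'.support.map E.toEmbedding with hA
  set c : (ι → ℕ) → K := fun α => coeff (E.symm α) g' with hc
  have hsumA : ∀ x : ι → K, eval x g' = ∑ α ∈ A, c α * ∏ j, x j ^ α j := by
    intro x
    rw [hA, Finset.sum_map, eval_eq']
    refine Finset.sum_congr rfl fun α _ => ?_
    simp [hc, hE]
  have hAne : A.Nonempty := by
    rw [hA, Finset.map_nonempty]
    exact MvPolynomial.support_nonempty.2 hg'0
  have hcne : ∀ α ∈ A, c α ≠ 0 := by
    intro α hα
    rw [hA, Finset.mem_map] at hα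
    obtain ⟨β, hβ, rfl⟩ := hα
    simpa [hc] using hβ
  obtain ⟨γ, hγ, hγmin⟩ := Finset.exists_min_image A (fun α => ∑ j, α j * p j) hAne
  set M := ∑ j, γ j * p j with hM
  set A' := A.filter (fun α => ∑ j, α j * p j = M) with hA'
  have hA'sub : ∀ α ∈ A', α ∈ A ∧ ∑ j, α j * p j = M := fun α hα => by
    rw [hA', Finset.mem_filter] at hα
    exact hα
  set V : Submodule ℚ (ι → ℚ) := LinearMap.ker (fn p) with hV
  have hVfin : Module.finrank ℚ V ≤ q := by
    by_cases hemp : Nonempty ι
    · obtain ⟨j0⟩ := hemp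
      have hne : V ≠ ⊤ := by
        intro htop
        have h1 : (Pi.single j0 (1 : ℚ) : ι → ℚ) ∈ V := htop ▸ Submodule.mem_top
        rw [hV, LinearMap.mem_ker, fn_apply] at h1
        rw [Finset.sum_eq_single j0] at h1
        · simp at h1
          have := hp1 j0
          omega
        · intro b _ hb
          simp [hb]
        · simp
      have h2 := Submodule.finrank_lt hne
      rw [Module.finrank_fintype_fun_eq_card] at h2
      omega
    · have h1 : Module.finrank ℚ V ≤ Module.finrank ℚ (ι → ℚ) := Submodule.finrank_le V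
      rw [Module.finrank_fintype_fun_eq_card] at h1
      have h2 : Fintype.card ι = 0 := by
        rw [Fintype.card_eq_zero_iff]
        exact not_nonempty_iff.1 hemp
      omega
  obtain ⟨w, z, hwz⟩ := core ha (h := h) p X hp1 hX M q (fun j => tw QX (p j) (v j)) hF hpspec
    A' ⟨γ, by rw [hA', Finset.mem_filter]; exact ⟨hγ, rfl⟩⟩ c
    (fun α hα => hcne α (hA'sub α hα).1) (fun α hα => (hA'sub α hα).2) V hVfin
    (fun α hα β hβ => by
      rw [hV, LinearMap.mem_ker, fn_sub, (hA'sub α hα).2, (hA'sub β hβ).2, sub_self])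
  by_contra hcon
  push Not at hcon
  apply hwz
  have h1 : ∑ α ∈ A, Polynomial.C (c α) * ∏ j, ex QX (pt a h w z) (v j) ^ α j = 0 := by
    apply Polynomial.funext
    intro y
    rw [Polynomial.eval_zero, Polynomial.eval_finsetSum]
    rw [← hcon w y z, hbind, eval_bind₁', hsumA]
    refine Finset.sum_congr rfl fun α _ => ?_
    rw [Polynomial.eval_mul, Polynomial.eval_C, Polynomial.eval_prod]
    congr 1
    refine Finset.prod_congr rfl fun j _ => ?_
    rw [Polynomial.eval_pow, eval_ex]
    congr 3
    funext k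
    simp [QX, mul_comm]
  have h3 := lowest (fun j => ex QX (pt a h w z) (v j)) p
    (fun j r hr => hpmin j r hr w z) A c M hγmin h1
  rw [← h3]
  refine Finset.sum_congr rfl fun α _ => ?_
  congr 1
  refine Finset.prod_congr rfl fun j _ => ?_
  rw [coeff_ex]

end Pool.Agent.Helper7.RO
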