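import Mathlib
import Pool.Agent.Helper7.RO5
import Pool.Agent.Helper7.RODefs

/-!
# Read-once compositions: the proof of the main theorem
-/

namespace Pool.Agent.Helper7.ReadOnceFormulas

open MvPolynomial Finset Pool.Agent.Helper7.RO

universe u v

variable {K : Type u} {σ : Type v} [Field K]

lemma vars_subset [DecidableEq σ] {t s D : ℕ} {X : Set σ} {f : MvPolynomial σ K}
    (h : ReadOnce K σ t s D X f) : (↑f.vars : Set σ) ⊆ X := by
  induction h with
  | leaf b hs hD => intro i hi; simpa using hi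
  | gate m hm g X u hu hX ih =>
    intro k hk
    have h1 := vars_bind₁ u g (Finset.mem_coe.1 hk)
    rw [Finset.mem_biUnion] at h1
    obtain ⟨j, _, hj⟩ := h1
    exact Set.mem_iUnion.2 ⟨j, ih j (Finset.mem_coe.2 hj)⟩

theorem gate_good [Infinite K] [Fintype σ] [DecidableEq σ] {τ : Type*} {a : σ → K}
    (ha : Function.Injective a) {h : σ → MvPolynomial τ K} {q m : ℕ} (har : m ≤ q + 1)
    (g : MvPolynomial (Fin m) K) (u : Fin m → MvPolynomial σ K)
    (hX : ∀ i j, i ≠ j → Disjoint (u i).vars (u j).vars)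
    (ih' : ∀ j, (∃ c0, u j = C c0) ∨ Good a h q (u j)) :
    (∃ c0, bind₁ u g = C c0) ∨ Good a h q (bind₁ u g) := by
  classical
  set J := {j : Fin m // ¬ ∃ c0, u j = C c0} with hJ
  set g' : MvPolynomial J K := aeval (fun j : Fin m =>
    if hj : ∃ c0, u j = C c0 then (C hj.choose : MvPolynomial J K) else X ⟨j, hj⟩) g with hg'
  have hbind : bind₁ u g = bind₁ (fun j : J => u j) g' := by
    rw [hg']
    have h2 : (bind₁ fun j : J => u j) ((aeval (fun j : Fin m =>
        if hj : ∃ c0, u j = C c0 then (C hj.choose : MvPolynomial J K) else X ⟨j, hj⟩)) g)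
        = bind₁ (fun i => (bind₁ fun j : J => u j) (if hj : ∃ c0, u i = C c0 then
          (C hj.choose : MvPolynomial J K) else X ⟨i, hj⟩)) g := bind₁_bind₁ _ _ _
    rw [h2]
    congr 2
    funext j
    split_ifs with hj
    · rw [algHom_C]
      exact hj.choose_spec
    · rw [bind₁_X_right]
  rw [hbind]
  by_cases hconst : ∃ c1, g' = C c1
  · left
    obtain ⟨c1, hc1⟩ := hconst
    exact ⟨c1, by rw [hc1, algHom_C]; rfl⟩
  · right
    set c0 := eval 0 (bind₁ (fun j : J => u j) g') with hc0
    have hne : g' - C c0 ≠ 0 := by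
      intro h0
      exact hconst ⟨c0, sub_eq_zero.1 h0⟩
    have hcard : Fintype.card J ≤ q + 1 := by
      have := Fintype.card_subtype_le (fun j : Fin m => ¬ ∃ c0, u j = C c0)
      rw [Fintype.card_fin] at this
      exact this.trans har
    have hXd : Pairwise fun i j : J => Disjoint (u i).vars (u j).vars := by
      intro i j hij
      exact hX _ _ (fun h => hij (Subtype.ext h))
    have hvars : ∀ j : J, ∀ e ∈ (u j).support, ∀ k ∉ (u j).vars, e k = 0 := by
      intro j e he k hk
      by_contra hek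
      exact hk ((mem_vars_iff_mem_support _).2 ⟨e, he, Finsupp.mem_support_iff.2 hek⟩)
    obtain ⟨w, y, z, hwyz⟩ := closure ha (h := h) (q := q) hcard (fun j : J => u j)
      (fun j : J => (u j).vars) hXd hvars (fun j => (ih' j).resolve_left j.2) (g' - C c0) hne
    refine ⟨w, y, z, ?_⟩
    rw [map_sub, algHom_C, map_sub] at hwyz
    intro heq
    apply hwyz
    rw [heq]
    simp [hc0]

/-- the polynomial curve `w ↦ (w ^ (κ ^ k mod p))_k` -/
noncomputable def curve (K : Type u) [Field K] (n p κ : ℕ) (k : Fin n) : MvPolynomial Unit K :=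
  X () ^ (κ ^ (k : ℕ) % p)

lemma point_eq {n r : ℕ} (a : Fin n → K) (p κ : ℕ) (w y : K) (z : Fin r → K) :
    point a p κ w y z = fun k => y * pt a (curve K n p κ) (fun _ => w) z k := by
  funext k
  simp [point, pt, curve, L, mul_assoc]

/-- a good separating exponent makes a leaf nonconstant -/
lemma leaf_good [Infinite K] {n q p κ : ℕ} {a : Fin n → K} (b : MvPolynomial (Fin n) K)
    (m0 : Fin n →₀ ℕ) (hm0 : m0 ∈ b.support) (hm00 : m0 ≠ 0)
    (hsep : ∀ m ∈ b.support, m ≠ m0 →
      ∑ k, m k * (κ ^ (k : ℕ) % p) ≠ ∑ k, m0 k * (κ ^ (k : ℕ) % p)) :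
    Good a (curve K n p κ) q b := by
  classical
  obtain ⟨z0, hz0⟩ := (Set.finite_range a).infinite_compl.nonempty
  have hlam : ∀ k, ∏ _c : Fin q, L a k z0 ≠ 0 := by
    intro k
    rw [Finset.prod_ne_zero_iff]
    intro _ _
    unfold L
    rw [Finset.prod_ne_zero_iff]
    intro j _ hj
    exact hz0 ⟨j, (sub_eq_zero.1 hj).symm⟩
  set lam : Fin n → K := fun k => ∏ _c : Fin q, L a k z0 with hlamdef
  set e : Fin n → ℕ := fun k => κ ^ (k : ℕ) % p with he
  set P : Polynomial K := ∑ m ∈ b.support,
    Polynomial.C (coeff m b * ∏ k, lam k ^ m k) * Polynomial.X ^ (∑ k, m k * e k) with hP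
  have hPeval : ∀ w : K, P.eval w
      = eval (fun k => 1 * pt a (curve K n p κ) (fun _ => w) (fun _ : Fin q => z0) k) b := by
    intro w
    rw [hP, Polynomial.eval_finsetSum, eval_eq']
    refine Finset.sum_congr rfl fun m _ => ?_
    rw [Polynomial.eval_mul, Polynomial.eval_C, Polynomial.eval_pow, Polynomial.eval_X, mul_assoc]
    congr 1
    rw [← Finset.prod_pow_eq_pow_sum, ← Finset.prod_mul_distrib]
    refine Finset.prod_congr rfl fun k _ => ?_
    simp only [pt, curve, one_mul, map_pow, eval_X]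
    rw [mul_pow, ← pow_mul, mul_comm (e k)]
    ring
  have hcoeff : (P - Polynomial.C (eval 0 b)).coeff (∑ k, m0 k * e k) ≠ 0 := by
    rw [Polynomial.coeff_sub, hP, Polynomial.finsetSum_coeff, Finset.sum_eq_single m0]
    · have h1 : (Polynomial.C (eval 0 b)).coeff (∑ k, m0 k * e k) = 0 := by
        rw [Polynomial.coeff_C]
        split_ifs with h0
        · rw [eval_zero, constantCoeff_eq]
          by_contra hne
          have h2 := hsep 0 (mem_support_iff.2 hne) (Ne.symm hm00)
          apply h2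
          rw [show (∑ k, m0 k * (κ ^ (k : ℕ) % p)) = 0 from h0]
          simp
        · rfl
      rw [h1, sub_zero, Polynomial.coeff_C_mul, Polynomial.coeff_X_pow_self, mul_one]
      refine mul_ne_zero (mem_support_iff.1 hm0) ?_
      rw [Finset.prod_ne_zero_iff]
      intro k _
      exact pow_ne_zero _ (hlam k)
    · intro m hm hmm0
      rw [Polynomial.coeff_C_mul, Polynomial.coeff_X_pow,
        if_neg (fun h => hsep m hm hmm0 h.symm), mul_zero]
    · intro h
      exact absurd hm0 h
  have hne : P - Polynomial.C (eval 0 b) ≠ 0 := by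
    intro h0
    rw [h0] at hcoeff
    simp at hcoeff
  obtain ⟨w, hw⟩ : ∃ w, (P - Polynomial.C (eval 0 b)).eval w ≠ 0 := by
    by_contra hcon
    push Not at hcon
    apply hne
    apply Polynomial.funext
    intro w
    rw [hcon w, Polynomial.eval_zero]
  rw [Polynomial.eval_sub, Polynomial.eval_C, hPeval] at hw
  exact ⟨fun _ => w, 1, fun _ => z0, sub_ne_zero.1 hw⟩

/-- few exponents fail to separate two monomials -/
lemma card_bad_pair {n p D : ℕ} [Fact p.Prime] (hD : D < p) (m m' : Fin n →₀ ℕ) (hne : m ≠ m')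
    (hm : ∀ k, m k ≤ D) (hm' : ∀ k, m' k ≤ D) :
    #((range p).filter fun κ => ∑ k : Fin n, m k * (κ ^ (k : ℕ) % p)
      = ∑ k : Fin n, m' k * (κ ^ (k : ℕ) % p)) ≤ n - 1 := by
  classical
  set Δ : Polynomial (ZMod p) :=
    ∑ k : Fin n, Polynomial.C ((m k : ZMod p) - (m' k : ZMod p)) * Polynomial.X ^ (k : ℕ) with hΔ
  have hΔ0 : Δ ≠ 0 := by
    intro h0
    apply hne
    ext k
    have h1 : Δ.coeff (k : ℕ) = (m k : ZMod p) - (m' k : ZMod p) := by
      rw [hΔ, Polynomial.finsetSum_coeff, Finset.sum_eq_single k]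
      · rw [Polynomial.coeff_C_mul, Polynomial.coeff_X_pow_self, mul_one]
      · intro b _ hb
        rw [Polynomial.coeff_C_mul, Polynomial.coeff_X_pow,
          if_neg (fun h => hb (Fin.ext h.symm)), mul_zero]
      · simp
    rw [h0, Polynomial.coeff_zero] at h1
    have h2 : ((m k : ℕ) : ZMod p) = ((m' k : ℕ) : ZMod p) := (sub_eq_zero.1 h1.symm)
    rw [ZMod.natCast_eq_natCast_iff'] at h2
    rwa [Nat.mod_eq_of_lt ((hm k).trans_lt hD), Nat.mod_eq_of_lt ((hm' k).trans_lt hD)] at h2
  have hdeg : Δ.natDegree ≤ n - 1 := by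
    rw [hΔ]
    apply Polynomial.natDegree_sum_le_of_forall_le
    intro k _
    refine (Polynomial.natDegree_C_mul_X_pow_le _ _).trans ?_
    have := k.2
    omega
  refine le_trans ?_ hdeg
  refine le_trans ?_ (Polynomial.card_roots' Δ)
  refine le_trans ?_ (Multiset.toFinset_card_le Δ.roots)
  apply Finset.card_le_card_of_injOn (fun κ : ℕ => (κ : ZMod p))
  · intro κ hκ
    rw [Finset.mem_coe, Finset.mem_filter] at hκ
    rw [Finset.mem_coe, Multiset.mem_toFinset, Polynomial.mem_roots hΔ0, Polynomial.IsRoot.def,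
      hΔ, Polynomial.eval_finsetSum]
    have h3 := congrArg (fun r : ℕ => (r : ZMod p)) hκ.2
    simp only [Nat.cast_sum, Nat.cast_mul, ZMod.natCast_mod, Nat.cast_pow] at h3
    rw [← sub_eq_zero, ← Finset.sum_sub_distrib] at h3
    rw [← h3]
    refine Finset.sum_congr rfl fun k _ => ?_
    simp
    ring
  · intro κ hκ κ' hκ' heq
    rw [Finset.mem_coe, Finset.mem_filter, Finset.mem_range] at hκ hκ'
    simp only at heq
    rw [ZMod.natCast_eq_natCast_iff'] at heq
    rwa [Nat.mod_eq_of_lt hκ.1, Nat.mod_eq_of_lt hκ'.1] at heq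

open Classical in
/-- the exponents `κ` that are bad for a polynomial -/
noncomputable def bad [Infinite K] {n : ℕ} (a : Fin n → K) (q p : ℕ)
    (b : MvPolynomial (Fin n) K) : Finset ℕ :=
  (range p).filter fun κ => ¬ ((∃ c0, b = C c0) ∨ Good a (curve K n p κ) q b)

lemma card_bad_leaf [Infinite K] {n q p s D : ℕ} [Fact p.Prime] (hD : D < p) {a : Fin n → K}
    (b : MvPolynomial (Fin n) K) (hs : #b.support ≤ s) (hbD : b.totalDegree ≤ D) :
    #(bad a q p b) ≤ (s - 1) * (n - 1) * #b.vars := by
  classical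
  by_cases hc : ∃ c0, b = C c0
  · have : bad a q p b = ∅ := by
      unfold bad
      rw [Finset.filter_eq_empty_iff]
      intro κ _
      simp [hc]
    rw [this]
    simp
  · -- a nonconstant monomial
    obtain ⟨m0, hm0, hm00⟩ : ∃ m0 ∈ b.support, m0 ≠ 0 := by
      by_contra hcon
      push Not at hcon
      apply hc
      refine ⟨coeff 0 b, ?_⟩
      ext m
      rw [coeff_C]
      split_ifs with h
      · rw [h]
      · by_contra hne
        exact h (hcon m (mem_support_iff.2 hne)).symm
    have hvars : 1 ≤ #b.vars := by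
      rw [Nat.one_le_iff_ne_zero, Ne, Finset.card_eq_zero]
      intro hempty
      apply hm00
      ext k
      by_contra hk
      have : k ∈ b.vars := (mem_vars_iff_mem_support _).2 ⟨m0, hm0, Finsupp.mem_support_iff.2 hk⟩
      rw [hempty] at this
      simp at this
    have hle : ∀ m ∈ b.support, ∀ k, m k ≤ D := by
      intro m hm k
      have h1 := le_totalDegree hm
      have h2 : m k ≤ m.sum fun _ e => e := by
        by_cases hk : k ∈ m.support
        · exact Finset.single_le_sum (f := fun k => m k) (fun _ _ => Nat.zero_le _) hk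
        · rw [Finsupp.notMem_support_iff.1 hk]
          exact Nat.zero_le _
      exact h2.trans (h1.trans hbD)
    have hsub : bad a q p b ⊆ (b.support.erase m0).biUnion fun m =>
        (range p).filter fun κ => ∑ k : Fin n, m k * (κ ^ (k : ℕ) % p)
          = ∑ k : Fin n, m0 k * (κ ^ (k : ℕ) % p) := by
      intro κ hκ
      unfold bad at hκ
      rw [Finset.mem_filter] at hκ
      by_contra hcon
      apply hκ.2
      right
      apply leaf_good b m0 hm0 hm00
      intro m hm hmm0 heq
      apply hcon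
      rw [Finset.mem_biUnion]
      exact ⟨m, Finset.mem_erase.2 ⟨hmm0, hm⟩, Finset.mem_filter.2 ⟨hκ.1, heq⟩⟩
    refine (Finset.card_le_card hsub).trans ?_
    refine Finset.card_biUnion_le.trans ?_
    calc _ ≤ ∑ _m ∈ b.support.erase m0, (n - 1) := by
          apply Finset.sum_le_sum
          intro m hm
          rw [Finset.mem_erase] at hm
          exact card_bad_pair hD m m0 hm.1 (hle m hm.2) (hle m0 hm0)
      _ = (#b.support - 1) * (n - 1) := by
          rw [Finset.sum_const, Finset.card_erase_of_mem hm0, smul_eq_mul]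
      _ ≤ (s - 1) * (n - 1) := Nat.mul_le_mul_right _ (Nat.sub_le_sub_right hs 1)
      _ = (s - 1) * (n - 1) * 1 := (mul_one _).symm
      _ ≤ _ := Nat.mul_le_mul_left _ hvars

lemma degreeOf_bind₁_le {α β : Type*} (H : α → MvPolynomial β K) (i : β) (d : ℕ)
    (hH : ∀ k, (H k).degreeOf i ≤ d) (f : MvPolynomial α K) :
    (bind₁ H f).degreeOf i ≤ f.totalDegree * d := by
  classical
  rw [bind₁, aeval_def, eval₂_eq]
  refine (degreeOf_sum_le _ _ _).trans ?_
  apply Finset.sup_le
  intro e he
  refine (degreeOf_mul_le _ _ _).trans ?_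
  have h1 : degreeOf i (algebraMap K (MvPolynomial β K) (coeff e f)) = 0 := degreeOf_C _ _
  rw [h1, zero_add]
  refine (degreeOf_prod_le _ _ _).trans ?_
  have h2 : (e.sum fun _ n => n) ≤ f.totalDegree := le_totalDegree he
  calc ∑ k ∈ e.support, degreeOf i (H k ^ e k) ≤ ∑ k ∈ e.support, e k * d := by
        apply Finset.sum_le_sum
        intro k _
        exact (degreeOf_pow_le _ _ _).trans (Nat.mul_le_mul_left _ (hH k))
    _ = (e.sum fun _ n => n) * d := by
        rw [Finsupp.sum, Finset.sum_mul]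
    _ ≤ f.totalDegree * d := Nat.mul_le_mul_right _ h2

/-- The full generator as a polynomial map. -/
noncomputable def full {n : ℕ} (a : Fin n → K) (q p κ : ℕ) (k : Fin n) :
    MvPolynomial (Unit ⊕ Unit ⊕ Fin q) K :=
  X (Sum.inr (Sum.inl ())) * X (Sum.inl ()) ^ (κ ^ (k : ℕ) % p) *
    ∏ c : Fin q, ∏ j ∈ univ.erase k, (X (Sum.inr (Sum.inr c)) - C (a j))

lemma eval_full {n : ℕ} (a : Fin n → K) (q p κ : ℕ) (x : Unit ⊕ Unit ⊕ Fin q → K)
    (f : MvPolynomial (Fin n) K) :
    eval x (bind₁ (full a q p κ) f) = eval (point a p κ (x (Sum.inl ()))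
      (x (Sum.inr (Sum.inl ()))) (fun c => x (Sum.inr (Sum.inr c)))) f := by
  rw [eval_bind₁']
  congr 2
  funext k
  simp [full, point]

lemma degreeOf_full_w {n : ℕ} (a : Fin n → K) {q p κ : ℕ} (hp : 0 < p) (k : Fin n) :
    (full a q p κ k).degreeOf (Sum.inl ()) ≤ p - 1 := by
  classical
  unfold full
  refine (degreeOf_mul_le _ _ _).trans ?_
  have h1 : degreeOf (Sum.inl ()) (∏ c : Fin q, ∏ j ∈ univ.erase k,
      (X (Sum.inr (Sum.inr c)) - C (a j) : MvPolynomial (Unit ⊕ Unit ⊕ Fin q) K)) = 0 := by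
    refine Nat.le_zero.1 ((degreeOf_prod_le _ _ _).trans ?_)
    rw [Nat.le_zero, Finset.sum_eq_zero_iff]
    intro c _
    refine Nat.le_zero.1 ((degreeOf_prod_le _ _ _).trans ?_)
    rw [Nat.le_zero, Finset.sum_eq_zero_iff]
    intro j _
    refine Nat.le_zero.1 ((degreeOf_sub_le _ _ _).trans ?_)
    rw [degreeOf_C, degreeOf_X]
    simp
  rw [h1, add_zero]
  refine (degreeOf_mul_le _ _ _).trans ?_
  have h2 : degreeOf (Sum.inl ()) (X (Sum.inr (Sum.inl ())) :
      MvPolynomial (Unit ⊕ Unit ⊕ Fin q) K) = 0 := by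
    rw [degreeOf_X]
    simp
  rw [h2, zero_add, degreeOf_X_self_pow]
  have := Nat.mod_lt (κ ^ (k : ℕ)) hp
  omega

lemma degreeOf_full_y {n : ℕ} (a : Fin n → K) {q p κ : ℕ} (k : Fin n) :
    (full a q p κ k).degreeOf (Sum.inr (Sum.inl ())) ≤ 1 := by
  classical
  unfold full
  refine (degreeOf_mul_le _ _ _).trans ?_
  have h1 : degreeOf (Sum.inr (Sum.inl ())) (∏ c : Fin q, ∏ j ∈ univ.erase k,
      (X (Sum.inr (Sum.inr c)) - C (a j) : MvPolynomial (Unit ⊕ Unit ⊕ Fin q) K)) = 0 := by
    refine Nat.le_zero.1 ((degreeOf_prod_le _ _ _).trans ?_)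
    rw [Nat.le_zero, Finset.sum_eq_zero_iff]
    intro c _
    refine Nat.le_zero.1 ((degreeOf_prod_le _ _ _).trans ?_)
    rw [Nat.le_zero, Finset.sum_eq_zero_iff]
    intro j _
    refine Nat.le_zero.1 ((degreeOf_sub_le _ _ _).trans ?_)
    rw [degreeOf_C, degreeOf_X]
    simp
  rw [h1, add_zero]
  refine (degreeOf_mul_le _ _ _).trans ?_
  have h2 : degreeOf (Sum.inr (Sum.inl ())) ((X (Sum.inl ()) ^ (κ ^ (k : ℕ) % p) :
      MvPolynomial (Unit ⊕ Unit ⊕ Fin q) K)) = 0 := by
    refine Nat.le_zero.1 ((degreeOf_pow_le _ _ _).trans ?_)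
    rw [degreeOf_X]
    simp
  rw [h2, add_zero, degreeOf_X_self]

lemma degreeOf_full_z {n : ℕ} (a : Fin n → K) {q p κ : ℕ} (k : Fin n) (c0 : Fin q) :
    (full a q p κ k).degreeOf (Sum.inr (Sum.inr c0)) ≤ n - 1 := by
  classical
  unfold full
  refine (degreeOf_mul_le _ _ _).trans ?_
  have h1 : degreeOf (Sum.inr (Sum.inr c0)) (∏ c : Fin q, ∏ j ∈ univ.erase k,
      (X (Sum.inr (Sum.inr c)) - C (a j) : MvPolynomial (Unit ⊕ Unit ⊕ Fin q) K)) ≤ n - 1 := by
    refine (degreeOf_prod_le _ _ _).trans ?_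
    have h3 : ∀ c : Fin q, degreeOf (Sum.inr (Sum.inr c0)) (∏ j ∈ univ.erase k,
      (X (Sum.inr (Sum.inr c)) - C (a j) : MvPolynomial (Unit ⊕ Unit ⊕ Fin q) K))
        ≤ if c = c0 then n - 1 else 0 := by
      intro c
      refine (degreeOf_prod_le _ _ _).trans ?_
      calc _ ≤ ∑ _j ∈ univ.erase k, (if c = c0 then 1 else 0) := by
            apply Finset.sum_le_sum
            intro j _
            refine (degreeOf_sub_le _ _ _).trans ?_
            rw [degreeOf_C, degreeOf_X]
            by_cases h : c = c0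
            · simp [h]
            · simp [h, Ne.symm h]
        _ ≤ _ := by
            rw [Finset.sum_const, Finset.card_erase_of_mem (Finset.mem_univ k), Finset.card_univ,
              Fintype.card_fin]
            split_ifs <;> simp
    refine (Finset.sum_le_sum fun c _ => h3 c).trans ?_
    simp
  have h2 : degreeOf (Sum.inr (Sum.inr c0)) (X (Sum.inr (Sum.inl ())) *
      X (Sum.inl ()) ^ (κ ^ (k : ℕ) % p) : MvPolynomial (Unit ⊕ Unit ⊕ Fin q) K) = 0 := by
    refine Nat.le_zero.1 ((degreeOf_mul_le _ _ _).trans ?_)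
    have h3 : degreeOf (Sum.inr (Sum.inr c0)) ((X (Sum.inl ()) ^ (κ ^ (k : ℕ) % p) :
      MvPolynomial (Unit ⊕ Unit ⊕ Fin q) K)) = 0 := by
      refine Nat.le_zero.1 ((degreeOf_pow_le _ _ _).trans ?_)
      rw [degreeOf_X]
      simp
    rw [h3, degreeOf_X]
    simp
  omega


theorem exists_bad [Infinite K] {n q t p s D : ℕ} [Fact p.Prime] (ht : t ≤ q + 1) (hD : D < p)
    {a : Fin n → K} (ha : Function.Injective a) {X : Set (Fin n)} {f : MvPolynomial (Fin n) K}
    (h : ReadOnce K (Fin n) t s D X f) :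
    ∃ bad : Finset ℕ, bad.card ≤ (s - 1) * (n - 1) * X.ncard ∧
      ∀ κ < p, κ ∉ bad → (∃ c0, f = C c0) ∨ Good a (curve K n p κ) q f := by
  classical
  induction h with
  | leaf b hs hbD =>
    refine ⟨bad a q p b, ?_, ?_⟩
    · have h2 : ({i | i ∈ b.vars} : Set (Fin n)) = ↑b.vars := rfl
      rw [h2, Set.ncard_coe_finset]
      exact card_bad_leaf hD b hs hbD
    · intro κ hκ hbad
      unfold bad at hbad
      rw [Finset.mem_filter, Finset.mem_range] at hbad
      by_contra hcon
      exact hbad ⟨hκ, hcon⟩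
  | gate m hm g X u hu hX ih =>
    choose B hB1 hB2 using ih
    refine ⟨univ.biUnion B, ?_, ?_⟩
    · refine Finset.card_biUnion_le.trans ?_
      have h3 : (⋃ j, X j).ncard = ∑ j, (X j).ncard := by
        have h2 : (⋃ j, X j) = ↑(univ.biUnion fun j => (X j).toFinset) := by
          ext κ
          simp
        rw [h2, Set.ncard_coe_finset, Finset.card_biUnion]
        · refine Finset.sum_congr rfl fun j _ => ?_
          rw [Set.ncard_eq_toFinset_card']
        · intro i _ j _ hij
          simp only [Function.onFun]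
          rw [Set.disjoint_toFinset]
          exact hX i j hij
      rw [h3, Finset.mul_sum]
      exact Finset.sum_le_sum fun j _ => hB1 j
    · intro κ hκ hbad
      apply gate_good ha (hm.trans ht) g u
      · intro i j hij
        rw [← Finset.disjoint_coe]
        exact (hX i j hij).mono (vars_subset (hu i)) (vars_subset (hu j))
      · intro j
        apply hB2 j κ hκ
        intro hj
        exact hbad (Finset.mem_biUnion.2 ⟨j, Finset.mem_univ j, hj⟩)

theorem main {K : Type u} [Field K] [Infinite K] {n : ℕ} (a : Fin n → K)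
    (ha : Function.Injective a) (s t D p : ℕ) (hp : p.Prime) (hpD : D < p)
    (hps : n * (n - 1) * (s - 1) < p) (W Y Z : Finset K) (hW : (p - 1) * D < #W)
    (hY : D < #Y) (hZ : (n - 1) * D < #Z) :
    #(hittingSet a t p W Y Z) ≤ p * #W * #Y * #Z ^ (t - 1) ∧
    ∀ (X : Set (Fin n)) (f : MvPolynomial (Fin n) K), ReadOnce K (Fin n) t s D X f →
      f ≠ 0 → f.totalDegree ≤ D → ∃ x ∈ hittingSet a t p W Y Z, eval x f ≠ 0 := by
  classical
  constructor
  · unfold hittingSet
    refine (Finset.card_image_le).trans (le_of_eq ?_)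
    rw [Finset.card_product, Finset.card_product, Finset.card_product, Fintype.card_piFinset,
      Finset.card_range]
    simp [mul_assoc]
  · intro X f hf hne hdeg
    have : Fact p.Prime := ⟨hp⟩
    have hmem : ∀ κ < p, ∀ w ∈ W, ∀ y ∈ Y, ∀ z : Fin (t - 1) → K, (∀ c, z c ∈ Z) →
        point a p κ w y z ∈ hittingSet a t p W Y Z := by
      intro κ hκ w hw y hy z hz
      unfold hittingSet
      refine Finset.mem_image.2 ⟨(κ, w, y, z), ?_, rfl⟩
      simp only [Finset.mem_product, Finset.mem_range, Fintype.mem_piFinset]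
      exact ⟨hκ, hw, hy, hz⟩
    -- a separating exponent
    obtain ⟨B, hB1, hB2⟩ := exists_bad (q := t - 1) (by omega) hpD ha hf
    obtain ⟨κ, hκp, hκ⟩ : ∃ κ < p, κ ∉ B := by
      by_contra hcon
      push Not at hcon
      have h1 : range p ⊆ B := fun κ hκ => hcon κ (Finset.mem_range.1 hκ)
      have h2 := Finset.card_le_card h1
      rw [Finset.card_range] at h2
      have h4 : X.ncard ≤ n := by
        refine (Set.ncard_le_card _).trans ?_
        simp
      have h5 : (s - 1) * (n - 1) * X.ncard ≤ n * (n - 1) * (s - 1) := by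
        calc (s - 1) * (n - 1) * X.ncard ≤ (s - 1) * (n - 1) * n :=
              Nat.mul_le_mul_left _ h4
          _ = _ := by ring
      omega
    rcases hB2 κ hκp hκ with ⟨c0, hc0⟩ | hgood
    · -- constant polynomial
      obtain ⟨w, hw⟩ := Finset.card_pos.1 (Nat.zero_lt_of_lt hW)
      obtain ⟨y, hy⟩ := Finset.card_pos.1 (Nat.zero_lt_of_lt hY)
      obtain ⟨z, hz⟩ := Finset.card_pos.1 (Nat.zero_lt_of_lt hZ)
      refine ⟨_, hmem 0 hp.pos w hw y hy (fun _ => z) (fun _ => hz), ?_⟩
      rw [hc0, eval_C]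
      rintro rfl
      rw [map_zero] at hc0
      exact hne hc0
    · obtain ⟨w, y, z, hwyz⟩ := hgood
      have hF : bind₁ (full a (t - 1) p κ) f ≠ 0 := by
        intro h0
        have h1 := eval_full a (t - 1) p κ
          (Sum.elim (fun _ => w ()) (Sum.elim (fun _ => y) z)) f
        have h2 := eval_full a (t - 1) p κ
          (Sum.elim (fun _ => w ()) (Sum.elim (fun _ => (0 : K)) z)) f
        rw [h0, map_zero, point_eq] at h1 h2
        simp only [Sum.elim_inl, Sum.elim_inr, zero_mul] at h1 h2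
        apply hwyz
        have hw' : (fun _ => w ()) = w := by
          funext x
          cases x
          rfl
        rw [hw'] at h1
        rw [← h1]
        exact h2
      by_contra hcon
      push Not at hcon
      apply hF
      apply eq_zero_of_eval_zero_at_prod_finset _ (Sum.elim (fun _ => W)
        (Sum.elim (fun _ => Y) (fun _ => Z)))
      · rintro (i | i | i)
        · cases i
          simp only [Sum.elim_inl]
          refine lt_of_le_of_lt (degreeOf_bind₁_le _ _ _ (degreeOf_full_w a hp.pos) _) ?_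
          refine lt_of_le_of_lt ?_ hW
          rw [mul_comm]
          exact Nat.mul_le_mul_left _ hdeg
        · cases i
          simp only [Sum.elim_inl, Sum.elim_inr]
          refine lt_of_le_of_lt (degreeOf_bind₁_le _ _ _ (degreeOf_full_y a) _) ?_
          rw [mul_one]
          exact lt_of_le_of_lt hdeg hY
        · simp only [Sum.elim_inr]
          refine lt_of_le_of_lt (degreeOf_bind₁_le _ _ _ (fun k => degreeOf_full_z a k i) _) ?_
          refine lt_of_le_of_lt ?_ hZ
          rw [mul_comm]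
          exact Nat.mul_le_mul_left _ hdeg
      · intro x hx
        rw [eval_full]
        apply hcon
        apply hmem κ hκp
        · exact hx (Sum.inl ())
        · exact hx (Sum.inr (Sum.inl ()))
        · intro c
          exact hx (Sum.inr (Sum.inr c))

end Pool.Agent.Helper7.ReadOnceFormulas
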