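import Mathlib
import Pool.Agent.Helper7.RODefs

/-! Sanity checks for the class `ReadOnce`. -/

namespace Pool.Agent.Helper7.ReadOnceFormulas

open MvPolynomial Finset

/-- a variable is a leaf -/
lemma readOnce_X (t D : ℕ) (hD : 1 ≤ D) {n : ℕ} (i : Fin n) :
    ReadOnce ℚ (Fin n) t 1 D {i} (X i) := by
  have h := ReadOnce.leaf (K := ℚ) (σ := Fin n) (t := t) (s := 1) (D := D) (X i)
    (by
      refine (Finset.card_le_card (support_monomial_subset (s := Finsupp.single i 1) (a := (1:ℚ)))).trans ?_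
      simp)
    (by rw [totalDegree_X]; exact hD)
  have h2 : ({k | k ∈ (X i : MvPolynomial (Fin n) ℚ).vars} : Set (Fin n)) = {i} := by
    ext k
    simp [vars_X]
  rwa [h2] at h

/-- the class is closed under the gate `(u, v) ↦ u ^ 2 + v` on disjoint inputs -/
lemma readOnce_sq_add (t s D : ℕ) (ht : 2 ≤ t) {n : ℕ} (U V : Set (Fin n))
    (hUV : Disjoint U V) (u v : MvPolynomial (Fin n) ℚ)
    (hu : ReadOnce ℚ (Fin n) t s D U u) (hv : ReadOnce ℚ (Fin n) t s D V v) :
    ReadOnce ℚ (Fin n) t s D (U ∪ V) (u ^ 2 + v) := by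
  have h := ReadOnce.gate (K := ℚ) (σ := Fin n) (t := t) (s := s) (D := D) 2 ht
    (X 0 ^ 2 + X 1) ![U, V] ![u, v]
    (by
      intro j
      fin_cases j
      · simpa using hu
      · simpa using hv)
    (by
      intro i j hij
      fin_cases i <;> fin_cases j <;> simp_all [disjoint_comm])
  have h2 : (⋃ j, ![U, V] j) = U ∪ V := by
    ext k
    simp [Set.mem_iUnion, Fin.exists_fin_two]
  rw [h2] at h
  simpa using h

/-- `(x₀² + x₁)² + x₂` is computed by a read-once formula with gates of arity two -/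
example : ReadOnce ℚ (Fin 3) 2 1 1 ({0} ∪ {1} ∪ {2})
    (((X 0) ^ 2 + X 1) ^ 2 + X 2 : MvPolynomial (Fin 3) ℚ) := by
  apply readOnce_sq_add _ _ _ le_rfl
  · simp
  · apply readOnce_sq_add _ _ _ le_rfl
    · simp
    · exact readOnce_X _ _ le_rfl _
    · exact readOnce_X _ _ le_rfl _
  · exact readOnce_X _ _ le_rfl _

end Pool.Agent.Helper7.ReadOnceFormulas
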